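import Pool.Agent.K6.H61.AF.OneX

set_option autoImplicit false

/-! # Local conditions on average over a family of integers with small pair correlations

A local system assigns to each prime `p` a function of an integer `n`, which depends on `n` modulo `p` for
`n` prime to `p` and has few Fourier coefficients in total there. -/

namespace Pool.Agent.K6.H61.AL

open Finset Filter
open Pool.Agent.H730R2.AA (NT)
open Pool.Agent.N430.PS (PB)
open Pool.Agent.K6.H61.AF (PI divisor_bound primeDvd_card)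

/-- a local system with complexity `s` -/
structure Loc (s : ℕ) where
  /-- the local function -/
  f : ℕ → ℤ → ℝ
  /-- the mean value -/
  g : ℕ → ℝ
  f0 : ∀ p n, 0 ≤ f p n
  f1 : ∀ p n, f p n ≤ 1
  g0 : ∀ p, 0 ≤ g p
  g1 : ∀ p, g p ≤ 1
  expand : ∀ p : ℕ, p.Prime → ∃ β : DirichletCharacter ℂ p → ℂ,
    (∀ n : ℤ, ((if (p : ℤ) ∣ n then 0 else f p n - g p : ℝ) : ℂ) =
      ∑ χ ∈ NT p, β χ * χ (n : ZMod p)) ∧
    ∑ χ ∈ NT p, ‖β χ‖ ≤ ((p - 1).divisors.card : ℝ) ^ s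

namespace Loc

variable {s : ℕ} (D : Loc s)

/-- the centred function -/
noncomputable def k (p : ℕ) (n : ℤ) : ℝ := if (p : ℤ) ∣ n then 0 else D.f p n - D.g p

/-- the sum over the primes `p ≤ x` -/
noncomputable def S (n : ℤ) (x : ℕ) : ℝ := ∑ p ∈ PB (x + 1), D.f p n

/-- the sum of the mean values over the primes `p ≤ x` -/
noncomputable def E (x : ℕ) : ℝ := ∑ p ∈ PB (x + 1), D.g p

lemma k_abs (p : ℕ) (n : ℤ) : |D.k p n| ≤ 1 := by
  have h1 := D.f0 p n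
  have h2 := D.f1 p n
  have h3 := D.g0 p
  have h4 := D.g1 p
  unfold k
  rw [abs_le]
  split_ifs
  · constructor <;> norm_num
  · constructor <;> linarith

end Loc

variable {s : ℕ}

/-- one pair of primes -/
lemma pair_le {ι : Type*} (Ω : Finset ι) (v : ι → ℤ) (D : Loc s) (p q : ℕ)
    (hp : p.Prime) (hq : q.Prime) (Δ : ℝ) (hΔ0 : 0 ≤ Δ)
    (hΔ : ∀ χ : DirichletCharacter ℂ p, χ ≠ 1 → ∀ ψ : DirichletCharacter ℂ q, ψ ≠ 1 →
      ‖∑ ω ∈ Ω, χ (v ω : ZMod p) * ψ (v ω : ZMod q)‖ ≤ Δ) :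
    ∑ ω ∈ Ω, D.k p (v ω) * D.k q (v ω) ≤
      ((p - 1).divisors.card : ℝ) ^ s * ((q - 1).divisors.card : ℝ) ^ s * Δ := by
  classical
  obtain ⟨β, h1, h2⟩ := D.expand p hp
  obtain ⟨γ, h3, h4⟩ := D.expand q hq
  have e : ((∑ ω ∈ Ω, D.k p (v ω) * D.k q (v ω) : ℝ) : ℂ) =
      ∑ χ ∈ NT p, ∑ ψ ∈ NT q, β χ * γ ψ * ∑ ω ∈ Ω, χ (v ω : ZMod p) * ψ (v ω : ZMod q) := by
    unfold Loc.k
    rw [Complex.ofReal_sum]
    simp_rw [Complex.ofReal_mul, h1, h3, Finset.sum_mul_sum, Finset.mul_sum]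
    rw [Finset.sum_comm]
    refine Finset.sum_congr rfl fun χ _ => ?_
    rw [Finset.sum_comm]
    refine Finset.sum_congr rfl fun ψ _ => ?_
    refine Finset.sum_congr rfl fun ω _ => ?_
    ring
  have hle : ∑ ω ∈ Ω, D.k p (v ω) * D.k q (v ω) ≤
      ‖((∑ ω ∈ Ω, D.k p (v ω) * D.k q (v ω) : ℝ) : ℂ)‖ := by
    rw [Complex.norm_real]
    exact le_abs_self _
  refine hle.trans ?_
  rw [e]
  have hNT : ∀ (m : ℕ) (χ : DirichletCharacter ℂ m), χ ∈ NT m → χ ≠ 1 := by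
    intro m χ hχ
    unfold NT at hχ
    exact (mem_filter.1 hχ).2
  calc ‖∑ χ ∈ NT p, ∑ ψ ∈ NT q, β χ * γ ψ * ∑ ω ∈ Ω, χ (v ω : ZMod p) * ψ (v ω : ZMod q)‖
      ≤ ∑ χ ∈ NT p, ∑ ψ ∈ NT q, ‖β χ‖ * ‖γ ψ‖ * Δ := by
        refine (norm_sum_le _ _).trans (Finset.sum_le_sum fun χ hχ => ?_)
        refine (norm_sum_le _ _).trans (Finset.sum_le_sum fun ψ hψ => ?_)
        rw [norm_mul, norm_mul]
        exact mul_le_mul_of_nonneg_left (hΔ χ (hNT p χ hχ) ψ (hNT q ψ hψ)) (by positivity)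
    _ = (∑ χ ∈ NT p, ‖β χ‖) * (∑ ψ ∈ NT q, ‖γ ψ‖) * Δ := by
        rw [Finset.sum_mul_sum, Finset.sum_mul]
        refine Finset.sum_congr rfl fun χ _ => ?_
        rw [Finset.sum_mul]
    _ ≤ ((p - 1).divisors.card : ℝ) ^ s * ((q - 1).divisors.card : ℝ) ^ s * Δ := by
        apply mul_le_mul_of_nonneg_right _ hΔ0
        exact mul_le_mul h2 h4 (Finset.sum_nonneg fun _ _ => norm_nonneg _) (by positivity)

/-- the variance -/
theorem var_le {ι : Type*} (Ω : Finset ι) (v : ι → ℤ) (D : Loc s) (S : Finset ℕ)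
    (hS : ∀ p ∈ S, p.Prime) (Δ : ℕ → ℕ → ℝ) (hΔ0 : ∀ p q, 0 ≤ Δ p q)
    (hΔ : ∀ p ∈ S, ∀ q ∈ S, p ≠ q → ∀ χ : DirichletCharacter ℂ p, χ ≠ 1 →
      ∀ ψ : DirichletCharacter ℂ q, ψ ≠ 1 →
      ‖∑ ω ∈ Ω, χ (v ω : ZMod p) * ψ (v ω : ZMod q)‖ ≤ Δ p q) :
    ∑ ω ∈ Ω, (∑ p ∈ S, D.k p (v ω)) ^ 2 ≤ (#S : ℝ) * #Ω +
      ∑ p ∈ S, ∑ q ∈ S.erase p,
        ((p - 1).divisors.card : ℝ) ^ s * ((q - 1).divisors.card : ℝ) ^ s * Δ p q := by
  classical
  have e : ∑ ω ∈ Ω, (∑ p ∈ S, D.k p (v ω)) ^ 2 =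
      ∑ p ∈ S, ∑ q ∈ S, ∑ ω ∈ Ω, D.k p (v ω) * D.k q (v ω) := by
    have h1 : ∀ ω ∈ Ω, (∑ p ∈ S, D.k p (v ω)) ^ 2 =
        ∑ p ∈ S, ∑ q ∈ S, D.k p (v ω) * D.k q (v ω) := by
      intro ω _
      rw [sq, Finset.sum_mul_sum]
    rw [Finset.sum_congr rfl h1, Finset.sum_comm]
    refine Finset.sum_congr rfl fun p _ => ?_
    rw [Finset.sum_comm]
  rw [e]
  have h2 : ∀ p ∈ S, ∑ q ∈ S, ∑ ω ∈ Ω, D.k p (v ω) * D.k q (v ω) ≤ #Ω +
      ∑ q ∈ S.erase p,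
        ((p - 1).divisors.card : ℝ) ^ s * ((q - 1).divisors.card : ℝ) ^ s * Δ p q := by
    intro p hp
    rw [← Finset.add_sum_erase S _ hp]
    apply add_le_add
    · calc ∑ ω ∈ Ω, D.k p (v ω) * D.k p (v ω) ≤ ∑ ω ∈ Ω, (1 : ℝ) := by
            apply Finset.sum_le_sum
            intro ω _
            have h := D.k_abs p (v ω)
            rw [← abs_mul_abs_self]
            have h0 := abs_nonneg (D.k p (v ω))
            nlinarith
        _ = #Ω := by simp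
    · apply Finset.sum_le_sum
      intro q hq
      rw [Finset.mem_erase] at hq
      exact pair_le Ω v D p q (hS p hp) (hS q hq.2) (Δ p q) (hΔ0 p q)
        (hΔ p hp q hq.2 (Ne.symm hq.1))
  calc ∑ p ∈ S, ∑ q ∈ S, ∑ ω ∈ Ω, D.k p (v ω) * D.k q (v ω)
      ≤ ∑ p ∈ S, ((#Ω : ℝ) + ∑ q ∈ S.erase p,
        ((p - 1).divisors.card : ℝ) ^ s * ((q - 1).divisors.card : ℝ) ^ s * Δ p q) :=
          Finset.sum_le_sum h2
    _ = _ := by
      rw [Finset.sum_add_distrib, Finset.sum_const, nsmul_eq_mul]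

/-- from the sum over the large primes to the count -/
lemma diffZ2 (D : Loc s) (n : ℤ) (y x : ℕ) (hyx : y ≤ x) :
    |D.S n x - D.E x| ≤
      |∑ p ∈ PI y x, D.k p n| + y + #((PI y x).filter (fun p : ℕ => (p : ℤ) ∣ n)) := by
  classical
  have hsplit : PB (x + 1) = PB (y + 1) ∪ PI y x := by
    ext p
    simp only [PB, PI, mem_union, mem_filter, mem_range, mem_Ioc]
    constructor
    · rintro ⟨h1, h2⟩
      by_cases h : p < y + 1
      · exact Or.inl ⟨h, h2⟩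
      · exact Or.inr ⟨⟨by omega, by omega⟩, h2⟩
    · rintro (⟨h1, h2⟩ | ⟨⟨h1, h3⟩, h2⟩)
      · exact ⟨by omega, h2⟩
      · exact ⟨by omega, h2⟩
  have hdisj : Disjoint (PB (y + 1)) (PI y x) := by
    rw [Finset.disjoint_left]
    intro p hp hp2
    simp only [PB, PI, mem_filter, mem_range, mem_Ioc] at hp hp2
    omega
  have hab : ∀ p, |D.f p n - D.g p| ≤ 1 := by
    intro p
    have a1 := D.f0 p n
    have a2 := D.f1 p n
    have a3 := D.g0 p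
    have a4 := D.g1 p
    rw [abs_le]
    constructor <;> linarith
  have h1 : D.S n x - D.E x =
      ∑ p ∈ PB (y + 1), (D.f p n - D.g p) + (∑ p ∈ PI y x, D.k p n +
        ∑ p ∈ PI y x, (if (p : ℤ) ∣ n then D.f p n - D.g p else 0)) := by
    rw [Loc.S, Loc.E, ← Finset.sum_sub_distrib, hsplit, Finset.sum_union hdisj,
      ← Finset.sum_add_distrib]
    congr 1
    refine Finset.sum_congr rfl fun p _ => ?_
    unfold Loc.k
    split_ifs <;> ring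
  have h2 : |∑ p ∈ PB (y + 1), (D.f p n - D.g p)| ≤ y := by
    refine (Finset.abs_sum_le_sum_abs _ _).trans ?_
    refine (Finset.sum_le_sum fun p _ => hab p).trans ?_
    rw [Finset.sum_const, nsmul_eq_mul, mul_one]
    have h4 : #(PB (y + 1)) ≤ y := by
      have h5 : PB (y + 1) ⊆ Icc 1 y := by
        intro p hp
        simp only [PB, mem_filter, mem_range] at hp
        rw [mem_Icc]
        exact ⟨hp.2.one_le, by omega⟩
      have := card_le_card h5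
      simpa using this
    exact_mod_cast h4
  have h3 : |∑ p ∈ PI y x, (if (p : ℤ) ∣ n then D.f p n - D.g p else 0)| ≤
      (#((PI y x).filter (fun p : ℕ => (p : ℤ) ∣ n)) : ℝ) := by
    rw [← Finset.sum_filter]
    refine (Finset.abs_sum_le_sum_abs _ _).trans ?_
    refine (Finset.sum_le_sum fun p _ => hab p).trans ?_
    simp
  rw [h1]
  have h4 := abs_add_le (∑ p ∈ PB (y + 1), (D.f p n - D.g p))
    (∑ p ∈ PI y x, D.k p n + ∑ p ∈ PI y x, (if (p : ℤ) ∣ n then D.f p n - D.g p else 0))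
  have h5 := abs_add_le (∑ p ∈ PI y x, D.k p n)
    (∑ p ∈ PI y x, (if (p : ℤ) ∣ n then D.f p n - D.g p else 0))
  linarith

lemma divisor_bound_pow (s : ℕ) (δ : ℝ) (hδ : 0 < δ) :
    ∃ C : ℝ, 0 < C ∧ ∀ n : ℕ, n ≠ 0 → ((n.divisors.card : ℕ) : ℝ) ^ s ≤ C * (n : ℝ) ^ δ := by
  obtain ⟨C, hC, h⟩ := divisor_bound (δ / (s + 1)) (by positivity)
  refine ⟨C ^ s, by positivity, fun n hn => ?_⟩
  have hn1 : (1 : ℝ) ≤ n := by exact_mod_cast Nat.one_le_iff_ne_zero.2 hn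
  calc ((n.divisors.card : ℕ) : ℝ) ^ s ≤ (C * (n : ℝ) ^ (δ / (s + 1))) ^ s :=
        pow_le_pow_left₀ (Nat.cast_nonneg _) (h n hn) s
    _ = C ^ s * ((n : ℝ) ^ (δ / (s + 1))) ^ s := mul_pow _ _ _
    _ ≤ C ^ s * (n : ℝ) ^ δ := by
        apply mul_le_mul_of_nonneg_left _ (by positivity)
        rw [← Real.rpow_natCast, ← Real.rpow_mul (by linarith)]
        apply Real.rpow_le_rpow_of_exponent_le hn1
        rw [div_mul_eq_mul_div, div_le_iff₀ (by positivity)]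
        nlinarith

end Pool.Agent.K6.H61.AL
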