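import Pool.Agent.K6.H61.AF.AllX
import Pool.Agent.K6.H61.AL.Fam

set_option autoImplicit false

/-! # All `x` of a range at the same time -/

namespace Pool.Agent.K6.H61.AL

open Finset Filter
open Pool.Agent.N430.PS (PB)
open Pool.Agent.K6.H61.AF (PI pow_gap)

lemma S_mono {s : ℕ} (D : Loc s) (n : ℤ) {x y : ℕ} (h : x ≤ y) : D.S n x ≤ D.S n y := by
  unfold Loc.S
  apply Finset.sum_le_sum_of_subset_of_nonneg
  · intro p hp
    simp only [PB, mem_filter, mem_range] at hp ⊢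
    exact ⟨by omega, hp.2⟩
  · intro p _ _
    exact D.f0 p n

lemma E_lip {s : ℕ} (D : Loc s) {x y : ℕ} (h : x ≤ y) :
    D.E x ≤ D.E y ∧ D.E y ≤ D.E x + ((y : ℝ) - x) := by
  have hsub : PB (x + 1) ⊆ PB (y + 1) := by
    intro p hp
    simp only [PB, mem_filter, mem_range] at hp ⊢
    exact ⟨by omega, hp.2⟩
  constructor
  · unfold Loc.E
    exact Finset.sum_le_sum_of_subset_of_nonneg hsub fun p hp _ => D.g0 p
  · unfold Loc.E
    rw [← Finset.sum_sdiff hsub]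
    have h1 : ∑ p ∈ PB (y + 1) \ PB (x + 1), D.g p ≤ (y : ℝ) - x := by
      calc ∑ p ∈ PB (y + 1) \ PB (x + 1), D.g p ≤ ∑ p ∈ PB (y + 1) \ PB (x + 1), (1 : ℝ) := by
            apply Finset.sum_le_sum
            intro p hp
            exact D.g1 p
        _ = (#(PB (y + 1) \ PB (x + 1)) : ℝ) := by simp
        _ ≤ (#(Ioc x y) : ℝ) := by
            apply Nat.cast_le.2
            apply card_le_card
            intro p hp
            rw [Finset.mem_sdiff] at hp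
            obtain ⟨hp1, hp2⟩ := hp
            unfold PB at hp1 hp2
            rw [mem_filter, mem_range] at hp1 hp2
            rw [mem_Ioc]
            refine ⟨?_, by omega⟩
            by_contra hcon
            exact hp2 ⟨by omega, hp1.2⟩
        _ = (y : ℝ) - x := by
            rw [Nat.card_Ioc, Nat.cast_sub h]
    linarith

/-- **All `x` at the same time.** -/
theorem allX (s : ℕ) (δ : ℝ) (hδ : 0 < δ) (hδ1 : δ ≤ 1) : ∃ c : ℝ, 0 < c ∧ c ≤ δ ∧ ∃ R X₀ : ℕ, 1 ≤ R ∧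
    ∀ (ι : Type) (Ω : Finset ι) (v : ι → ℤ) (D : Loc s) (X Y : ℕ), X₀ ≤ X → X ≤ Y →
    (∀ z : ℕ, X ≤ R * z → z ≤ R * Y →
      (#(Ω.filter (fun ω => (z : ℝ) ^ (1 - δ / 8) <
        |D.S (v ω) z - D.E z|)) : ℝ) ≤ (z : ℝ) ^ (-(δ / 4)) * #Ω) →
    (#(open Classical in Ω.filter (fun ω => ∃ x : ℕ, X ≤ x ∧ x ≤ Y ∧ (x : ℝ) ^ (1 - c) <
        |D.S (v ω) x - D.E x|)) : ℝ) ≤ (X : ℝ) ^ (-c) * #Ω := by
  classical
  obtain ⟨k, hk⟩ := exists_nat_ge (8 / δ)
  set K : ℕ := k + 1 with hK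
  have hKδ : 8 / δ ≤ K := by
    rw [hK]
    push_cast
    linarith
  have hK0 : (0 : ℝ) < K := by
    rw [hK]
    positivity
  have hKδ2 : 8 ≤ K * δ := by
    rw [div_le_iff₀ hδ] at hKδ
    exact hKδ
  set c : ℝ := 1 / (2 * K) with hc
  have hc0 : 0 < c := by positivity
  have hKi : 1 / (K : ℝ) ≤ δ / 8 := by
    rw [div_le_div_iff₀ hK0 (by norm_num)]
    linarith
  have hcK : c = 1 / (K : ℝ) / 2 := by rw [hc]; field_simp
  set R : ℕ := 2 ^ K with hR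
  have hR1 : 1 ≤ R := Nat.one_le_two_pow
  have hev : ∀ᶠ x : ℕ in atTop, max (((K : ℝ) + 1) * R) 16 ≤ (x : ℝ) ^ c :=
    ((tendsto_rpow_atTop hc0).comp tendsto_natCast_atTop_atTop).eventually_ge_atTop _
  obtain ⟨X₀, hX₀⟩ := eventually_atTop.1 (hev.and (eventually_ge_atTop 1))
  refine ⟨c, hc0, by rw [hcK]; linarith, R, X₀, hR1, fun ι Ω v D X Y hX hXY hone => ?_⟩
  obtain ⟨-, hX1⟩ := hX₀ X hX
  have hX1' : (1 : ℝ) ≤ X := by exact_mod_cast hX1
  have hX0 : (0 : ℝ) < X := by linarith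
  have hΩ0 : (0 : ℝ) ≤ #Ω := Nat.cast_nonneg _
  set I : Finset ℕ := (range (R * Y + 1)).filter (fun j => X ≤ R * j ^ K ∧ j ^ K ≤ R * Y) with hI
  set Bd : ℕ → Finset ι := fun z => Ω.filter (fun ω => (z : ℝ) ^ (1 - δ / 8) <
        |D.S (v ω) z - D.E z|) with hBd
  have hincl : Ω.filter (fun ω => ∃ x : ℕ, X ≤ x ∧ x ≤ Y ∧ (x : ℝ) ^ (1 - c) <
        |D.S (v ω) x - D.E x|) ⊆ I.biUnion (fun j => Bd (j ^ K)) := by
    intro ω hω
    rw [mem_filter] at hω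
    obtain ⟨hωΩ, x, hXx, hxY, hx⟩ := hω
    have hx1 : 1 ≤ x := hX1.trans hXx
    have hx1' : (1 : ℝ) ≤ x := by exact_mod_cast hx1
    have hx0 : (0 : ℝ) < x := by linarith
    obtain ⟨hxc, -⟩ := hX₀ x (hX.trans hXx)
    -- the index
    set j := Nat.findGreatest (fun j => j ^ K ≤ x) x with hj
    have hj1 : j ^ K ≤ x := by
      have := Nat.findGreatest_spec (P := fun j => j ^ K ≤ x) (m := 0) (n := x) (Nat.zero_le _)
        (by rw [hK, pow_succ, mul_zero]; exact Nat.zero_le _)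
      exact this
    have hj2 : x < (j + 1) ^ K := by
      by_contra hcon
      push Not at hcon
      have h1 : j + 1 ≤ x := by
        calc j + 1 ≤ (j + 1) ^ K := Nat.le_self_pow (by omega) _
          _ ≤ x := hcon
      have h2 := Nat.le_findGreatest (P := fun j => j ^ K ≤ x) h1 hcon
      omega
    have hjpos : 1 ≤ j := by
      by_contra hcon
      have : j = 0 := by omega
      rw [this, zero_add, one_pow] at hj2
      omega
    have hjR : (j + 1) ^ K ≤ R * j ^ K := by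
      rw [hR, ← mul_pow]
      exact Nat.pow_le_pow_left (by omega) _
    have hmem1 : j ∈ I := by
      rw [hI, mem_filter, mem_range]
      refine ⟨?_, hXx.trans (hj2.le.trans hjR), ?_⟩
      · have h1 : j ≤ j ^ K := Nat.le_self_pow (by omega) _
        have h2 : Y ≤ R * Y := Nat.le_mul_of_pos_left _ (by omega)
        omega
      · have h2 : Y ≤ R * Y := Nat.le_mul_of_pos_left _ (by omega)
        omega
    have hmem2 : j + 1 ∈ I := by
      rw [hI, mem_filter, mem_range]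
      have h3 : (j + 1) ^ K ≤ R * Y := hjR.trans (Nat.mul_le_mul_left _ (hj1.trans hxY))
      refine ⟨?_, ?_, h3⟩
      · have h1 : j + 1 ≤ (j + 1) ^ K := Nat.le_self_pow (by omega) _
        omega
      · have h2 : (j + 1) ^ K ≤ R * (j + 1) ^ K := Nat.le_mul_of_pos_left _ (by omega)
        omega
    rw [mem_biUnion]
    by_contra hcon
    push Not at hcon
    have hn1 := hcon j hmem1
    have hn2 := hcon (j + 1) hmem2
    simp only [hBd] at hn1 hn2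
    rw [mem_filter, not_and, not_lt] at hn1 hn2
    have ha1 := hn1 hωΩ
    have ha2 := hn2 hωΩ
    -- the errors
    have hzx : ((j ^ K : ℕ) : ℝ) ≤ x := by exact_mod_cast hj1
    have hxz : (x : ℝ) ≤ ((j + 1) ^ K : ℕ) := by exact_mod_cast hj2.le
    have hzR : (((j + 1) ^ K : ℕ) : ℝ) ≤ R * x := by
      exact_mod_cast hjR.trans (Nat.mul_le_mul_left _ hj1)
    have hRr : (1 : ℝ) ≤ R := by exact_mod_cast hR1
    have he0 : 0 ≤ 1 - δ / 8 := by linarith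
    have he1 : 1 - δ / 8 ≤ 1 := by linarith
    have hpowx : (x : ℝ) ^ (1 - δ / 8) ≤ (x : ℝ) ^ (1 - 1 / (K : ℝ)) :=
      Real.rpow_le_rpow_of_exponent_le hx1' (by linarith)
    have hE2 : (((j + 1) ^ K : ℕ) : ℝ) ^ (1 - δ / 8) ≤ R * (x : ℝ) ^ (1 - 1 / (K : ℝ)) := by
      calc (((j + 1) ^ K : ℕ) : ℝ) ^ (1 - δ / 8) ≤ ((R : ℝ) * x) ^ (1 - δ / 8) :=
            Real.rpow_le_rpow (Nat.cast_nonneg _) hzR he0
        _ = (R : ℝ) ^ (1 - δ / 8) * (x : ℝ) ^ (1 - δ / 8) := Real.mul_rpow (by positivity) hx0.le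
        _ ≤ (R : ℝ) ^ (1 : ℝ) * (x : ℝ) ^ (1 - 1 / (K : ℝ)) := by
            apply mul_le_mul (Real.rpow_le_rpow_of_exponent_le hRr he1) hpowx (by positivity)
              (by positivity)
        _ = _ := by rw [Real.rpow_one]
    have hE1 : (((j) ^ K : ℕ) : ℝ) ^ (1 - δ / 8) ≤ R * (x : ℝ) ^ (1 - 1 / (K : ℝ)) := by
      calc (((j) ^ K : ℕ) : ℝ) ^ (1 - δ / 8) ≤ (x : ℝ) ^ (1 - δ / 8) :=
            Real.rpow_le_rpow (Nat.cast_nonneg _) hzx he0
        _ ≤ (x : ℝ) ^ (1 - 1 / (K : ℝ)) := hpowx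
        _ ≤ _ := le_mul_of_one_le_left (by positivity) hRr
    have hgap : (((j + 1) ^ K : ℕ) : ℝ) - ((j ^ K : ℕ) : ℝ) ≤
        K * (R * (x : ℝ) ^ (1 - 1 / (K : ℝ))) := by
      have h1 := pow_gap k ((j : ℝ) + 1) (by
        have : (0 : ℝ) ≤ j := Nat.cast_nonneg _
        linarith)
      rw [add_sub_cancel_right] at h1
      have h2 : (((j + 1) ^ K : ℕ) : ℝ) - ((j ^ K : ℕ) : ℝ) ≤ ((k : ℝ) + 1) * ((j : ℝ) + 1) ^ k := by
        push_cast
        rw [hK]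
        exact h1
      refine h2.trans ?_
      have h3 : ((K : ℕ) : ℝ) = (k : ℝ) + 1 := by rw [hK]; push_cast; rfl
      rw [← h3]
      apply mul_le_mul_of_nonneg_left _ hK0.le
      have hj1r : (1 : ℝ) ≤ j := by exact_mod_cast hjpos
      have h4 : ((j : ℝ) + 1) ^ k ≤ (2 * (j : ℝ)) ^ k :=
        pow_le_pow_left₀ (by positivity) (by linarith) k
      have h5 : (j : ℝ) ^ k ≤ (x : ℝ) ^ (1 - 1 / (K : ℝ)) := by
        have h6 : (j : ℝ) ≤ (x : ℝ) ^ (1 / (K : ℝ)) := by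
          have h7 : (j : ℝ) ^ K ≤ x := by exact_mod_cast hj1
          have h8 : ((j : ℝ) ^ K) ^ (1 / (K : ℝ)) ≤ (x : ℝ) ^ (1 / (K : ℝ)) :=
            Real.rpow_le_rpow (by positivity) h7 (by positivity)
          have h9 : ((j : ℝ) ^ K) ^ (1 / (K : ℝ)) = j := by
            rw [← Real.rpow_natCast, ← Real.rpow_mul (by positivity), mul_one_div, div_self hK0.ne',
              Real.rpow_one]
          rw [h9] at h8
          exact h8
        calc (j : ℝ) ^ k ≤ ((x : ℝ) ^ (1 / (K : ℝ))) ^ k := pow_le_pow_left₀ (by positivity) h6 k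
          _ = (x : ℝ) ^ (1 - 1 / (K : ℝ)) := by
              rw [← Real.rpow_natCast, ← Real.rpow_mul hx0.le]
              congr 1
              rw [h3]
              field_simp
              ring
      calc ((j : ℝ) + 1) ^ k ≤ (2 * (j : ℝ)) ^ k := h4
        _ = 2 ^ k * (j : ℝ) ^ k := mul_pow _ _ _
        _ ≤ R * (x : ℝ) ^ (1 - 1 / (K : ℝ)) := by
            apply mul_le_mul _ h5 (by positivity) (by positivity)
            rw [hR, hK, pow_succ]
            push_cast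
            have : (0 : ℝ) ≤ 2 ^ k := by positivity
            linarith
    have hfin : K * (R * (x : ℝ) ^ (1 - 1 / (K : ℝ))) + R * (x : ℝ) ^ (1 - 1 / (K : ℝ)) ≤
        (x : ℝ) ^ (1 - c) := by
      have e1 : (x : ℝ) ^ (1 - c) = (x : ℝ) ^ c * (x : ℝ) ^ (1 - 1 / (K : ℝ)) := by
        rw [← Real.rpow_add hx0]
        congr 1
        rw [hcK]
        ring
      rw [e1]
      have h1 : ((K : ℝ) + 1) * R ≤ (x : ℝ) ^ c := (le_max_left _ _).trans hxc
      have h2 : 0 ≤ (x : ℝ) ^ (1 - 1 / (K : ℝ)) := by positivity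
      calc K * (R * (x : ℝ) ^ (1 - 1 / (K : ℝ))) + R * (x : ℝ) ^ (1 - 1 / (K : ℝ))
          = ((K : ℝ) + 1) * R * (x : ℝ) ^ (1 - 1 / (K : ℝ)) := by ring
        _ ≤ _ := mul_le_mul_of_nonneg_right h1 h2
    have hm1 : D.S (v ω) (j ^ K) ≤ D.S (v ω) x := S_mono D _ hj1
    have hm2 : D.S (v ω) x ≤ D.S (v ω) ((j + 1) ^ K) := S_mono D _ hj2.le
    have hl1 := E_lip D hj1
    have hl2 := E_lip D hj2.le
    rw [abs_le] at ha1 ha2
    have hcontra : |D.S (v ω) x - D.E x| ≤ (x : ℝ) ^ (1 - c) := by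
      rw [abs_le]
      constructor
      · linarith [ha1.1, hl1.2]
      · linarith [ha2.2, hl2.2]
    linarith
  -- the sum
  set t : ℝ := (X : ℝ) ^ (1 / (K : ℝ)) / 2 with ht
  have hXc : 16 ≤ (X : ℝ) ^ c := (le_max_right _ _).trans (hX₀ X hX).1
  have hXK : (X : ℝ) ^ (1 / (K : ℝ)) = (X : ℝ) ^ c * (X : ℝ) ^ c := by
    rw [← Real.rpow_add hX0]
    congr 1
    rw [hcK]
    ring
  have ht2 : 2 ≤ t := by
    rw [ht, hXK]
    nlinarith
  set m : ℕ := ⌈t⌉₊ - 1 with hm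
  have hceil : t ≤ ⌈t⌉₊ := Nat.le_ceil t
  have hc2 : 2 ≤ ⌈t⌉₊ := by
    have : (2 : ℝ) ≤ ⌈t⌉₊ := ht2.trans hceil
    exact_mod_cast this
  have hm1 : 1 ≤ m := by omega
  have hmr : (m : ℝ) = ⌈t⌉₊ - 1 := by
    rw [hm, Nat.cast_sub (by omega)]
    simp
  have hmt : t / 2 ≤ m := by linarith
  have hIsub : ∀ j ∈ I, j ∈ Ioc m (max (R * Y) m) := by
    intro j hj
    rw [hI, mem_filter, mem_range] at hj
    obtain ⟨h1, h2, h3⟩ := hj
    rw [mem_Ioc]
    refine ⟨?_, le_trans (by omega) (le_max_left _ _)⟩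
    have h4 : (X : ℝ) ≤ (2 * (j : ℝ)) ^ K := by
      have : (X : ℝ) ≤ (R : ℝ) * (j : ℝ) ^ K := by exact_mod_cast h2
      rw [mul_pow]
      rw [hR] at this
      push_cast at this
      exact this
    have h5 : (X : ℝ) ^ (1 / (K : ℝ)) ≤ 2 * j := by
      have h8 : (X : ℝ) ^ (1 / (K : ℝ)) ≤ ((2 * (j : ℝ)) ^ K) ^ (1 / (K : ℝ)) :=
        Real.rpow_le_rpow hX0.le h4 (by positivity)
      have h9 : ((2 * (j : ℝ)) ^ K) ^ (1 / (K : ℝ)) = 2 * j := by
        rw [← Real.rpow_natCast, ← Real.rpow_mul (by positivity), mul_one_div, div_self hK0.ne',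
          Real.rpow_one]
      rw [h9] at h8
      exact h8
    have h6 : t ≤ j := by
      rw [ht]
      linarith
    have h7 : ⌈t⌉₊ ≤ j := Nat.ceil_le.2 h6
    omega
  have hsum : ∑ j ∈ I, (((j : ℝ)) ^ 2)⁻¹ ≤ (X : ℝ) ^ (-c) := by
    have h1 : ∑ j ∈ I, (((j : ℝ)) ^ 2)⁻¹ ≤ ∑ j ∈ Ioc m (max (R * Y) m), (((j : ℝ)) ^ 2)⁻¹ :=
      Finset.sum_le_sum_of_subset_of_nonneg hIsub fun _ _ _ => by positivity
    have h2 := sum_Ioc_inv_sq_le_sub (α := ℝ) (k := m) (n := max (R * Y) m) (by omega)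
      (le_max_right _ _)
    have h3 : (0 : ℝ) ≤ ((max (R * Y) m : ℕ) : ℝ)⁻¹ := by positivity
    have h4 : (m : ℝ)⁻¹ ≤ (t / 2)⁻¹ := inv_anti₀ (by linarith) hmt
    have h5 : (t / 2)⁻¹ ≤ (X : ℝ) ^ (-c) := by
      rw [Real.rpow_neg hX0.le]
      apply inv_anti₀ (by positivity)
      rw [ht, hXK]
      nlinarith
    linarith
  have hBdc : ∀ j ∈ I, (#(Bd (j ^ K)) : ℝ) ≤ (((j : ℝ)) ^ 2)⁻¹ * #Ω := by
    intro j hj
    have hj' := hj
    rw [hI, mem_filter] at hj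
    have h1 := hone (j ^ K) hj.2.1 hj.2.2
    refine h1.trans ?_
    apply mul_le_mul_of_nonneg_right _ hΩ0
    have hj1 : 1 ≤ j := by
      have := (mem_Ioc.1 (hIsub j hj')).1
      omega
    have hj1r : (1 : ℝ) ≤ j := by exact_mod_cast hj1
    have e1 : ((j ^ K : ℕ) : ℝ) ^ (-(δ / 4)) = (j : ℝ) ^ (-(K * (δ / 4))) := by
      push_cast
      rw [← Real.rpow_natCast, ← Real.rpow_mul (by positivity)]
      congr 1
      ring
    rw [e1]
    calc (j : ℝ) ^ (-(K * (δ / 4))) ≤ (j : ℝ) ^ (-(2 : ℝ)) :=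
          Real.rpow_le_rpow_of_exponent_le hj1r (by linarith)
      _ = (((j : ℝ)) ^ 2)⁻¹ := by
          rw [Real.rpow_neg (by positivity)]
          norm_num
  calc (#(Ω.filter (fun ω => ∃ x : ℕ, X ≤ x ∧ x ≤ Y ∧ (x : ℝ) ^ (1 - c) <
        |D.S (v ω) x - D.E x|)) : ℝ)
      ≤ ∑ j ∈ I, (#(Bd (j ^ K)) : ℝ) := by
        exact_mod_cast (card_le_card hincl).trans card_biUnion_le
    _ ≤ ∑ j ∈ I, (((j : ℝ)) ^ 2)⁻¹ * #Ω := Finset.sum_le_sum hBdc
    _ = (∑ j ∈ I, (((j : ℝ)) ^ 2)⁻¹) * #Ω := by rw [Finset.sum_mul]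
    _ ≤ _ := mul_le_mul_of_nonneg_right hsum hΩ0

end Pool.Agent.K6.H61.AL
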