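import Pool.Agent.K6.H61.LE.Defs

set_option autoImplicit false

/-! # Families of groups `⟨W₀, D n ^ r⟩`: definitions -/

namespace Pool.Agent.K6.H61.AL

open NumberField Finset
open Pool.Agent.K6.H61.LE (FrobIn InS)

/-- Data of Lenstra's problem for a family of groups, without any conditions except `k ≥ 1`: a number
field `F`, a subset `C` of its automorphism group, a subgroup `W₀` of `ℚˣ`, an integer `k ≥ 1`, a nonzero
rational `D` and an integer `r ≥ 0`. The groups are `⟨W₀, D n ^ r⟩`, `n = 1, 2, …` -/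
structure Data where
  /-- the field -/
  F : IntermediateField ℚ (AlgebraicClosure ℚ)
  [nf : NumberField F]
  /-- the set of automorphisms -/
  C : Set (F ≃ₐ[ℚ] F)
  /-- the fixed part of the groups -/
  W₀ : Subgroup ℚˣ
  /-- the bound for the index -/
  k : ℕ
  k_pos : 0 < k
  /-- the coefficient -/
  D : ℚˣ
  /-- the exponent -/
  r : ℕ

attribute [instance] Data.nf

namespace Data

variable (A : Data)

/-- the group `⟨W₀, D n ^ r⟩` -/
def W (n : ℕ) : Subgroup ℚˣ :=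
  A.W₀ ⊔ Subgroup.closure {w : ℚˣ | (w : ℚ) = (A.D : ℚ) * (n : ℚ) ^ A.r}

/-- `q` is in `𝒮(F, C, ⟨W₀, D n ^ r⟩, k)` -/
def Sat (n q : ℕ) : Prop := InS A.F A.C (A.W n) A.k q

/-- `C` is a union of conjugacy classes -/
def ConjStable (F : IntermediateField ℚ (AlgebraicClosure ℚ)) (C : Set (F ≃ₐ[ℚ] F)) : Prop :=
  ∀ σ ∈ C, ∀ τ : F ≃ₐ[ℚ] F, τ * σ * τ⁻¹ ∈ C

/-- The conditions of Q1 (`F / ℚ` Galois, `C` stable under conjugation, `W₀` finitely generated), and
`r ≥ 1` with `l ^ (ν_l(k) + 1)` dividing `r` for all primes `l ∣ r` (every `r` if `k = 1`, and `r = 1`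
for every `k`). -/
structure Admissible : Prop where
  gal : IsGalois ℚ A.F
  conj : ConjStable A.F A.C
  fg : A.W₀.FG
  r_pos : 0 < A.r
  dvd : ∀ l : ℕ, l.Prime → l ∣ A.r → l ^ (A.k.factorization l + 1) ∣ A.r

end Data

open Classical in
/-- the number of the primes `q ≤ x` of `S` which are in `𝒮(F_i, C_i, ⟨W₀_i, D_i n ^ r_i⟩, k_i)` for all
`i` -/
noncomputable def cnt {s : ℕ} (A : Fin s → Data) (S : Set ℕ) (n x : ℕ) : ℕ :=
  #((Icc 1 x).filter (fun q => q.Prime ∧ q ∈ S ∧ ∀ i, (A i).Sat n q))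

open Classical in
/-- the proportion of the `b` in `[1, q - 1]` such that `q` is in
`𝒮(F_i, C_i, ⟨W₀_i, D_i b ^ r_i⟩, k_i)` for all `i` -/
noncomputable def prop {s : ℕ} (A : Fin s → Data) (q : ℕ) : ℝ :=
  (#((Icc 1 (q - 1)).filter (fun b => ∀ i, (A i).Sat b q)) : ℝ) / ((q - 1 : ℕ) : ℝ)

open Classical in
/-- the sum of these proportions over the primes `q ≤ x` of `S` -/
noncomputable def mean {s : ℕ} (A : Fin s → Data) (S : Set ℕ) (x : ℕ) : ℝ :=
  ∑ q ∈ (Icc 1 x).filter (fun q => q.Prime ∧ q ∈ S), prop A q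

open Classical in
/-- the number of the primes `q ≤ x` in the set `𝒮(F, C, ⟨W₀, D n ^ r⟩, k)` of Q1 -/
noncomputable def Data.S (A : Data) (n x : ℕ) : ℕ :=
  #((Icc 1 x).filter (fun q => q.Prime ∧ A.Sat n q))

/-- Lenstra's density `δ(F, C, W, k)` of Q1 -/
noncomputable def δ (F : IntermediateField ℚ (AlgebraicClosure ℚ)) [NumberField F]
    (C : Set (F ≃ₐ[ℚ] F)) (W : Subgroup ℚˣ) (k : ℕ) : ℝ :=
  ∑' n : ℕ, (ArithmeticFunction.moebius n : ℝ) *
    (Nat.card {σ : F ≃ₐ[ℚ] F // σ ∈ C ∧ ∀ y : F,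
        (y : AlgebraicClosure ℚ) ∈ IntermediateField.adjoin ℚ
          {z : AlgebraicClosure ℚ | ∃ w ∈ W,
            z ^ (∏ l ∈ n.primeFactors, l ^ (k.factorization l + 1)) =
              algebraMap ℚ (AlgebraicClosure ℚ) (w : ℚ)} → σ y = y} : ℝ) /
    (Module.finrank ℚ ↥(F ⊔ IntermediateField.adjoin ℚ
          {z : AlgebraicClosure ℚ | ∃ w ∈ W,
            z ^ (∏ l ∈ n.primeFactors, l ^ (k.factorization l + 1)) =
              algebraMap ℚ (AlgebraicClosure ℚ) (w : ℚ)}) : ℝ)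

/-- for some `x` between `X` and `Y` the number of the primes differs from the sum of the proportions by
more than `x ^ (1 - c)` -/
def Irregular {s : ℕ} (A : Fin s → Data) (S : Set ℕ) (c : ℝ) (X Y n : ℕ) : Prop :=
  ∃ x : ℕ, X ≤ x ∧ x ≤ Y ∧ (x : ℝ) ^ (1 - c) < |(cnt A S n x : ℝ) - mean A S x|

/-- for some `x` between `X` and `Y` the number of the primes `q ≤ x` in the set of Q1 differs from
`δ(F, C, ⟨W₀, D n ^ r⟩, k) π(x)` by more than `ε π(x)` -/
def Data.Bad (A : Data) (ε : ℝ) (X Y n : ℕ) : Prop :=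
  ∃ x : ℕ, X ≤ x ∧ x ≤ Y ∧ ε * (Nat.primeCounting x : ℝ) <
    |(A.S n x : ℝ) - δ A.F A.C (A.W n) A.k * (Nat.primeCounting x : ℝ)|

/-- `n` is exactly divisible by a prime greater than `P` -/
def Exact (P n : ℕ) : Prop := ∃ p : ℕ, p.Prime ∧ P < p ∧ p ∣ n ∧ ¬ p ^ 2 ∣ n

open Classical in
/-- the number of the `m` with `1 ≤ m ≤ H` such that `a + d m` has the property `Q` -/
noncomputable def num (Q : ℕ → Prop) (a d H : ℕ) : ℕ := #((Icc 1 H).filter (fun m => Q (a + d * m)))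

/-- the conditions on `X`, `Y`, the length `H` and the difference `d`: `X ≤ Y`, `Y ^ (1/2 + η) ≤ H`, and
`d ≠ 0` has at most `X ^ (1 - η)` prime factors -/
def Cond (η : ℝ) (X Y H d : ℕ) : Prop :=
  X ≤ Y ∧ (Y : ℝ) ^ (1 / 2 + η) ≤ H ∧ d ≠ 0 ∧ (#d.primeFactors : ℝ) ≤ (X : ℝ) ^ (1 - η)

end Pool.Agent.K6.H61.AL
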