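import Pool.Agent.K6.H61.AL.PartA
import Pool.Agent.K6.H61.AL.Defs
import Pool.Agent.K6.H83.LG.MeanL
import Pool.Agent.W171.LG.CloseR

set_option autoImplicit false

/-! # Families of groups `⟨W₀, D n ^ r⟩`: the local condition on average and the limit of the mean -/

namespace Pool.Agent.K6.H61.AL

open Finset Filter Topology NumberField
open Pool.Agent.K6.H61.LE (FrobIn InS)
open Pool.Agent.W401.Cheb (M M_congr)
open Pool.Agent.W171.LG (QR Un rd un_iff M_eq aR gd Tp gT lim_lenR closeR tW Gen DR exists_unW UnW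
  LC_iffR gp_eqR LC)
open Pool.Agent.N430.CLT (PP mem_PP)

variable {s : ℕ}

/-- the monomials -/
def Data.toMono (A : Data) : Mono where
  F := A.F
  nf := A.nf
  C := A.C
  G := {v | (v.1 ∈ A.W₀ ∧ v.2 = 0) ∨ (v.1 = A.D ∧ v.2 = (A.r : ℤ))}
  k := A.k
  k_pos := A.k_pos

lemma toMono_W (A : Data) (n : ℕ) : A.toMono.W n = A.W n := by
  have h1 : {x : ℚˣ | ∃ v ∈ A.toMono.G, (x : ℚ) = (v.1 : ℚ) * (n : ℚ) ^ v.2} =
      (A.W₀ : Set ℚˣ) ∪ {w : ℚˣ | (w : ℚ) = (A.D : ℚ) * (n : ℚ) ^ A.r} := by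
    ext x
    constructor
    · rintro ⟨v, (⟨h1, h2⟩ | ⟨h1, h2⟩), hx⟩
      · left
        rw [h2, zpow_zero, mul_one] at hx
        have : x = v.1 := Units.ext hx
        rw [this]
        exact h1
      · right
        change (x : ℚ) = _
        rw [hx, h1, h2, zpow_natCast]
    · rintro (h | h)
      · exact ⟨(x, 0), Or.inl ⟨h, rfl⟩, by simp⟩
      · exact ⟨(A.D, (A.r : ℤ)), Or.inr ⟨rfl, rfl⟩, by
          rw [zpow_natCast]
          exact h⟩
  unfold Mono.W Data.W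
  rw [h1, Subgroup.closure_union, Subgroup.closure_eq]

lemma toMono_Sat (A : Data) (n q : ℕ) : A.toMono.Sat n q ↔ A.Sat n q := by
  unfold Mono.Sat Data.Sat
  rw [toMono_W]
  rfl

lemma toMono_cnt (A : Fin s → Data) (S : Set ℕ) (n x : ℕ) :
    cntM (fun i => (A i).toMono) S n x = cnt A S n x := by
  unfold cntM cnt
  refine congrArg Finset.card (Finset.ext fun q => ?_)
  simp only [mem_filter, toMono_Sat]

lemma toMono_prop (A : Fin s → Data) (q : ℕ) :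
    propM (fun i => (A i).toMono) q = prop A q := by
  unfold propM prop
  refine congrArg (fun z : ℕ => (z : ℝ) / ((q - 1 : ℕ) : ℝ))
    (congrArg Finset.card (Finset.ext fun b => ?_))
  simp only [mem_filter, toMono_Sat]

lemma toMono_mean (A : Fin s → Data) (S : Set ℕ) (x : ℕ) :
    meanM (fun i => (A i).toMono) S x = mean A S x := by
  unfold meanM mean
  simp only [toMono_prop]

open Classical in
theorem partA' (s : ℕ) (η : ℝ) (hη : 0 < η) : ∃ c : ℝ, 0 < c ∧ ∃ X₀ : ℕ,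
    ∀ X Y H : ℕ, X₀ ≤ X → X ≤ Y → (Y : ℝ) ^ (1 / 2 + η) ≤ H →
    ∀ a d : ℕ, d ≠ 0 → (#d.primeFactors : ℝ) ≤ (X : ℝ) ^ (1 - η) →
    ∀ (A : Fin s → Data) (S : Set ℕ),
    (#((Icc 1 H).filter (fun m : ℕ => ∃ x : ℕ, X ≤ x ∧ x ≤ Y ∧
      (x : ℝ) ^ (1 - c) < |(cnt A S (a + d * m) x : ℝ) - mean A S x|)) : ℝ) ≤
      (X : ℝ) ^ (-c) * H := by
  obtain ⟨c, hc, X₀, h⟩ := partA s η hη
  refine ⟨c, hc, X₀, fun X Y H hX hXY hH a d hd hdX A S => ?_⟩
  have := h X Y H hX hXY hH a d hd hdX (fun i => (A i).toMono) S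
  simp only [toMono_cnt, toMono_mean] at this
  exact this

/-- the proportion is the density of the condition modulo `q` -/
lemma prop_dens (A : Data) [IsGalois ℚ A.F] (hr : A.r ≠ 0) {q : ℕ} (hq : q.Prime)
    (hD : Un q (A.D : ℚ)) : prop (fun _ : Fin 1 => A) q =
      Pool.Agent.TH890.AS.dens q (QR A.F A.C A.W₀ A.k A.D A.r q) := by
  classical
  have : Fact q.Prime := ⟨hq⟩
  rw [Pool.Agent.TH890.AS.dens_eq]
  unfold prop
  congr 2
  refine Finset.card_bij (fun (b : ℕ) _ => (b : ZMod q)) ?_ ?_ ?_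
  · intro b hb
    rw [mem_filter, mem_Icc] at hb
    rw [mem_filter]
    refine ⟨mem_univ _, ?_⟩
    have h1 := hb.2 0
    have hb0 : b ≠ 0 := by omega
    have h2 : LC A.F A.C A.k (A.W b) q := h1
    unfold Data.W at h2
    rw [gp_eqR A.W₀ A.D A.r hb0] at h2
    exact (LC_iffR A.F A.C A.W₀ A.k A.D A.r A.k_pos.ne' hr hq hD hb0).1 h2
  · intro b hb b' hb' h
    rw [mem_filter, mem_Icc] at hb hb'
    have h1 : b % q = b' % q := (ZMod.natCast_eq_natCast_iff' b b' q).1 h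
    rwa [Nat.mod_eq_of_lt (by omega), Nat.mod_eq_of_lt (by omega)] at h1
  · intro z hz
    rw [mem_filter] at hz
    have hz0 : z ≠ 0 := hz.2.2.2.2.1
    have hv0 : z.val ≠ 0 := by
      intro h
      rw [ZMod.val_eq_zero] at h
      exact hz0 h
    have hvq := ZMod.val_lt z
    refine ⟨z.val, ?_, ZMod.natCast_zmod_val z⟩
    rw [mem_filter, mem_Icc]
    refine ⟨⟨by omega, by omega⟩, fun _ => ?_⟩
    have h2 := (LC_iffR A.F A.C A.W₀ A.k A.D A.r A.k_pos.ne' hr hq hD hv0).2 (by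
      rw [ZMod.natCast_zmod_val]
      exact hz.2)
    rw [← gp_eqR A.W₀ A.D A.r hv0] at h2
    exact h2

lemma mean_PP (A : Fin s → Data) (S : Set ℕ) (hS : ∀ q, q ∈ S) (x : ℕ) :
    ∑ p ∈ PP x, prop A p = mean A S x := by
  classical
  unfold mean
  refine Finset.sum_congr ?_ fun _ _ => rfl
  refine Finset.ext fun q => ?_
  constructor
  · intro h
    obtain ⟨h1, h2⟩ := mem_PP.1 h
    exact mem_filter.2 ⟨mem_Icc.2 ⟨h2.one_le, h1⟩, h2, hS q⟩
  · intro h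
    obtain ⟨h1, h2, -⟩ := mem_filter.1 h
    exact mem_PP.2 ⟨(mem_Icc.1 h1).2, h2⟩

/-- **the limit of the mean** -/
theorem mean_tendsto (A : Data) (hA : A.Admissible) :
    Tendsto (fun x : ℕ => mean (fun _ : Fin 1 => A) Set.univ x / (Nat.primeCounting x : ℝ)) atTop
      (𝓝 (haveI := hA.gal; ∑' e : ℕ, aR A.F A.C (A.W₀ ⊔ Subgroup.zpowers A.D) A.W₀ A.k
        A.r.primeFactors e)) := by
  classical
  have := hA.gal
  have hr := hA.r_pos.ne'
  have hW1 : (A.W₀ ⊔ Subgroup.zpowers A.D).FG :=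
    hA.fg.sup ⟨{A.D}, by simp [Subgroup.zpowers_eq_closure]⟩
  have hRp : ∀ l ∈ A.r.primeFactors, l.Prime := fun l hl => Nat.prime_of_mem_primeFactors hl
  have hlim := lim_lenR A.F A.C A.k A.r.primeFactors hA.conj hW1 hA.fg hRp
  obtain ⟨D0, hD0, hU0⟩ := exists_unW (W := A.W₀ ⊔ Subgroup.zpowers A.D) hW1
  have h1 : Tendsto (M fun p => prop (fun _ : Fin 1 => A) p) atTop
      (𝓝 (∑' e : ℕ, aR A.F A.C (A.W₀ ⊔ Subgroup.zpowers A.D) A.W₀ A.k A.r.primeFactors e)) := by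
    refine M_congr hD0 (fun p hp hpD => ?_) hlim
    have : Fact p.Prime := ⟨hp⟩
    have hUW := hU0 p hpD
    have hU1 : UnW A.W₀ p := fun w hw => hUW w (Subgroup.mem_sup_left hw)
    have hUD : Un p (A.D : ℚ) := hUW A.D (Subgroup.mem_sup_right (Subgroup.mem_zpowers A.D))
    rw [prop_dens A hr hp hUD,
      Pool.Agent.K6.H83.LG.dens_gT A.F A.C A.W₀ A.k A.D A.r hU1 hUD hr hA.dvd]
  refine h1.congr fun x => ?_
  rw [M_eq]
  congr 1
  exact mean_PP _ _ (fun _ => Set.mem_univ _) x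

/-- the density is near the limit of the mean -/
theorem close (A : Data) (hA : A.Admissible) (ε : ℝ) (hε : 0 < ε) :
    ∃ P : ℕ, ∀ n : ℕ, n ≠ 0 → (∃ p : ℕ, p.Prime ∧ P < p ∧ p ∣ n ∧ ¬ p ^ 2 ∣ n) →
      |δ A.F A.C (A.W n) A.k - (haveI := hA.gal; ∑' e : ℕ, aR A.F A.C
        (A.W₀ ⊔ Subgroup.zpowers A.D) A.W₀ A.k A.r.primeFactors e)| ≤ ε := by
  have := hA.gal
  obtain ⟨P, hP⟩ := closeR A.F A.C A.k hA.fg A.D hA.r_pos hA.dvd ε hε
  refine ⟨P, fun n hn hp => ?_⟩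
  have h1 := hP n hn hp
  rw [← gp_eqR A.W₀ A.D A.r hn] at h1
  exact h1

lemma cnt_S' (A : Data) (S : Set ℕ) (hS : ∀ q, q ∈ S) (n x : ℕ) :
    cnt (fun _ : Fin 1 => A) S n x = A.S n x := by
  classical
  unfold cnt Data.S
  refine congrArg Finset.card (Finset.ext fun q => ?_)
  constructor
  · intro h
    obtain ⟨h1, h2, -, h3⟩ := mem_filter.1 h
    exact mem_filter.2 ⟨h1, h2, h3 0⟩
  · intro h
    obtain ⟨h1, h2, h3⟩ := mem_filter.1 h
    exact mem_filter.2 ⟨h1, h2, hS q, fun _ => h3⟩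

lemma cnt_S (A : Data) (n x : ℕ) : cnt (fun _ : Fin 1 => A) Set.univ n x = A.S n x :=
  cnt_S' A _ (fun _ => Set.mem_univ _) n x

end Pool.Agent.K6.H61.AL
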