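import Pool.Agent.N430.PS.ExpandR

set_option autoImplicit false

/-! # The sum of the absolute values of the Fourier coefficients of a function on the units modulo `p` -/

namespace Pool.Agent.K6.H61.AL.Four

open Finset
open Pool.Agent.H730R2.AA (NT)
open Pool.Agent.H730R2.AA.Exp
open Pool.Agent.N430.PS (orth)

variable {p : ℕ} [Fact p.Prime]

/-- the sum of the absolute values of the Fourier coefficients -/
noncomputable def A1 (f : (ZMod p)ˣ → ℂ) : ℝ := ∑ χ : DirichletCharacter ℂ p, ‖fc f χ‖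

lemma A1_nonneg (f : (ZMod p)ˣ → ℂ) : 0 ≤ A1 f := Finset.sum_nonneg fun _ _ => norm_nonneg _

lemma fc_comb {ι : Type*} (T : Finset ι) (c : ι → ℂ) (χ : ι → DirichletCharacter ℂ p)
    (f : (ZMod p)ˣ → ℂ) (hf : ∀ u : (ZMod p)ˣ, f u = ∑ i ∈ T, c i * χ i (u : ZMod p))
    (ψ : DirichletCharacter ℂ p) [DecidableEq (DirichletCharacter ℂ p)] :
    fc f ψ = ∑ i ∈ T, if χ i = ψ then c i else 0 := by
  classical
  have h1 : fc f ψ = ∑ i ∈ T, c i * (((p - 1 : ℕ) : ℂ)⁻¹ *
      ∑ u : (ZMod p)ˣ, χ i (u : ZMod p) * ψ ((u⁻¹ : (ZMod p)ˣ) : ZMod p)) := by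
    unfold fc
    simp_rw [hf, Finset.sum_mul, Finset.mul_sum]
    rw [Finset.sum_comm]
    refine Finset.sum_congr rfl fun i _ => Finset.sum_congr rfl fun u _ => ?_
    ring
  rw [h1]
  refine Finset.sum_congr rfl fun i _ => ?_
  rw [orth]
  by_cases h : χ i = ψ
  · rw [if_pos h, if_pos h, mul_one]
  · rw [if_neg h, if_neg h, mul_zero]

lemma A1_comb {ι : Type*} (T : Finset ι) (c : ι → ℂ) (χ : ι → DirichletCharacter ℂ p)
    (f : (ZMod p)ˣ → ℂ) (hf : ∀ u : (ZMod p)ˣ, f u = ∑ i ∈ T, c i * χ i (u : ZMod p)) :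
    A1 f ≤ ∑ i ∈ T, ‖c i‖ := by
  classical
  unfold A1
  calc ∑ ψ : DirichletCharacter ℂ p, ‖fc f ψ‖
      ≤ ∑ ψ : DirichletCharacter ℂ p, ∑ i ∈ T, (if χ i = ψ then ‖c i‖ else 0) := by
        refine Finset.sum_le_sum fun ψ _ => ?_
        rw [fc_comb T c χ f hf ψ]
        refine (norm_sum_le _ _).trans (Finset.sum_le_sum fun i _ => ?_)
        split_ifs <;> simp
    _ = ∑ i ∈ T, ‖c i‖ := by
        rw [Finset.sum_comm]
        refine Finset.sum_congr rfl fun i _ => ?_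
        simp

lemma A1_const (c : ℂ) : A1 (fun _ : (ZMod p)ˣ => c) ≤ ‖c‖ := by
  have h := A1_comb (p := p) ({()} : Finset Unit) (fun _ => c) (fun _ => 1) (fun _ => c)
    (fun u => by simp)
  simpa using h

lemma A1_mul (f g : (ZMod p)ˣ → ℂ) : A1 (fun u => f u * g u) ≤ A1 f * A1 g := by
  classical
  have h := A1_comb (p := p) (univ ×ˢ univ : Finset (DirichletCharacter ℂ p × DirichletCharacter ℂ p))
    (fun z => fc f z.1 * fc g z.2) (fun z => z.1 * z.2) (fun u => f u * g u) (fun u => by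
      rw [← fc_inv f u, ← fc_inv g u, Finset.sum_mul_sum, Finset.sum_product]
      refine Finset.sum_congr rfl fun χ _ => Finset.sum_congr rfl fun ψ _ => ?_
      rw [MulChar.mul_apply]
      ring)
  refine h.trans (le_of_eq ?_)
  unfold A1
  rw [Finset.sum_mul_sum, Finset.sum_product]
  refine Finset.sum_congr rfl fun χ _ => Finset.sum_congr rfl fun ψ _ => ?_
  rw [norm_mul]

lemma A1_add (f g : (ZMod p)ˣ → ℂ) : A1 (fun u => f u + g u) ≤ A1 f + A1 g := by
  unfold A1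
  rw [← Finset.sum_add_distrib]
  refine Finset.sum_le_sum fun χ _ => ?_
  have h : fc (fun u => f u + g u) χ = fc f χ + fc g χ := by
    unfold fc
    simp_rw [add_mul, Finset.sum_add_distrib]
    ring
  rw [h]
  exact norm_add_le _ _

lemma A1_smul (c : ℂ) (f : (ZMod p)ˣ → ℂ) : A1 (fun u => c * f u) ≤ ‖c‖ * A1 f :=
  (A1_mul _ _).trans (mul_le_mul_of_nonneg_right (A1_const c) (A1_nonneg f))

lemma A1_one_sub (f : (ZMod p)ˣ → ℂ) : A1 (fun u => 1 - f u) ≤ 1 + A1 f := by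
  have h1 : (fun u => 1 - f u) = fun u => (1 : ℂ) + (-1) * f u := by
    funext u
    ring
  rw [h1]
  refine (A1_add (fun _ => 1) (fun u => (-1) * f u)).trans ?_
  have h2 := A1_const (p := p) 1
  have h3 := A1_smul (-1) f
  rw [norm_neg, norm_one, one_mul] at h3
  rw [norm_one] at h2
  linarith

lemma A1_shift (f : (ZMod p)ˣ → ℂ) (t : (ZMod p)ˣ) : A1 (fun u => f (t * u)) ≤ A1 f := by
  classical
  have h := A1_comb (p := p) (univ : Finset (DirichletCharacter ℂ p))
    (fun χ => fc f χ * χ (t : ZMod p)) (fun χ => χ) (fun u => f (t * u)) (fun u => by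
      rw [← fc_inv f (t * u)]
      refine Finset.sum_congr rfl fun χ _ => ?_
      rw [Units.val_mul, map_mul]
      ring)
  refine h.trans ?_
  unfold A1
  refine Finset.sum_le_sum fun χ _ => ?_
  rw [norm_mul]
  exact mul_le_of_le_one_right (norm_nonneg _) (DirichletCharacter.norm_le_one χ _)

lemma A1_prod {ι : Type*} (T : Finset ι) (f : ι → (ZMod p)ˣ → ℂ) :
    A1 (fun u => ∏ i ∈ T, f i u) ≤ ∏ i ∈ T, A1 (f i) := by
  classical
  induction T using Finset.induction_on with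
  | empty =>
    have := A1_const (p := p) 1
    simpa using this
  | insert a s ha ih =>
    simp_rw [Finset.prod_insert ha]
    exact (A1_mul _ _).trans (mul_le_mul_of_nonneg_left ih (A1_nonneg _))

/-- the indicator function of a set -/
noncomputable def ind (P : (ZMod p)ˣ → Prop) (u : (ZMod p)ˣ) : ℂ := open Classical in if P u then 1 else 0

lemma fc_sub (K : Subgroup (ZMod p)ˣ) (χ : DirichletCharacter ℂ p) :
    ∃ r : ℝ, 0 ≤ r ∧ fc (ind (fun u => u ∈ K)) χ = (r : ℂ) := by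
  classical
  set f : K →* ℂ :=
    { toFun := fun g => χ (((g : (ZMod p)ˣ)⁻¹ : (ZMod p)ˣ) : ZMod p)
      map_one' := by simp
      map_mul' := by
        intro a b
        change χ ((((a : (ZMod p)ˣ) * (b : (ZMod p)ˣ))⁻¹ : (ZMod p)ˣ) : ZMod p) = _
        rw [mul_inv, Units.val_mul, map_mul] } with hf
  have hsum : ∑ u : (ZMod p)ˣ, ind (fun u => u ∈ K) u * χ ((u⁻¹ : (ZMod p)ˣ) : ZMod p) =
      ∑ g : K, f g := by
    have h1 : ∑ u : (ZMod p)ˣ, ind (fun u => u ∈ K) u * χ ((u⁻¹ : (ZMod p)ˣ) : ZMod p)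
        = ∑ u ∈ univ.filter (fun u : (ZMod p)ˣ => u ∈ K), χ ((u⁻¹ : (ZMod p)ˣ) : ZMod p) := by
      rw [sum_filter]
      refine sum_congr rfl fun u _ => ?_
      unfold ind
      by_cases hu : u ∈ K
      · rw [if_pos hu, if_pos hu, one_mul]
      · rw [if_neg hu, if_neg hu, zero_mul]
    rw [h1]
    symm
    refine sum_bij (fun (g : K) _ => (g : (ZMod p)ˣ)) ?_ ?_ ?_ ?_
    · intro g _; simp
    · intro a _ b _ h; exact Subtype.ext h
    · intro u hu; exact ⟨⟨u, (mem_filter.1 hu).2⟩, mem_univ _, rfl⟩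
    · intro g _; rfl
  by_cases hf1 : f = 1
  · refine ⟨((p - 1 : ℕ) : ℝ)⁻¹ * (Fintype.card K : ℝ), by positivity, ?_⟩
    unfold fc
    rw [hsum, hf1]
    simp
  · refine ⟨0, le_rfl, ?_⟩
    unfold fc
    rw [hsum, sum_hom_units_eq_zero f hf1, mul_zero, Complex.ofReal_zero]

lemma A1_sub (K : Subgroup (ZMod p)ˣ) : A1 (ind (fun u => u ∈ K)) = 1 := by
  unfold A1
  choose r hr0 hr using fun χ : DirichletCharacter ℂ p => fc_sub K χ
  have h1 : ∀ χ, ‖fc (ind (fun u => u ∈ K)) χ‖ = r χ := fun χ => by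
    rw [hr, Complex.norm_real, Real.norm_of_nonneg (hr0 χ)]
  have h2 := fc_inv (p := p) (ind (fun u => u ∈ K)) 1
  simp only [Units.val_one, map_one, mul_one] at h2
  have h3 : ind (p := p) (fun u => u ∈ K) 1 = 1 := by simp [ind, K.one_mem]
  rw [h3] at h2
  have h4 : ((∑ χ : DirichletCharacter ℂ p, r χ : ℝ) : ℂ) = 1 := by
    rw [Complex.ofReal_sum, ← h2]
    exact sum_congr rfl fun χ _ => (hr χ).symm
  rw [sum_congr rfl fun χ _ => h1 χ]
  exact_mod_cast h4

/-- cosets -/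
lemma A1_coset (P : (ZMod p)ˣ → Prop) (K : Subgroup (ZMod p)ˣ)
    (h : ∀ u v, P u → (P v ↔ u⁻¹ * v ∈ K)) : A1 (ind P) ≤ 1 := by
  classical
  by_cases h0 : ∃ u, P u
  · obtain ⟨t, ht⟩ := h0
    have e : ind P = fun u => ind (fun u => u ∈ K) (t⁻¹ * u) := by
      funext u
      unfold ind
      have := h t u ht
      by_cases h1 : P u
      · rw [if_pos h1, if_pos (this.1 h1)]
      · rw [if_neg h1, if_neg fun h2 => h1 (this.2 h2)]
    rw [e]
    exact (A1_shift _ _).trans (A1_sub K).le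
  · have e : ind P = fun _ => 0 := by
      funext u
      unfold ind
      rw [if_neg fun h1 => h0 ⟨u, h1⟩]
    rw [e]
    have := A1_const (p := p) 0
    rw [norm_zero] at this
    linarith

lemma two_pow_omega {n : ℕ} (hn : n ≠ 0) : 2 ^ #n.primeFactors ≤ #n.divisors := by
  rw [Nat.card_divisors hn]
  refine Finset.pow_card_le_prod _ _ _ fun l hl => ?_
  have := (Nat.prime_of_mem_primeFactors hl).factorization_pos_of_dvd hn
    (Nat.dvd_of_mem_primeFactors hl)
  omega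

end Pool.Agent.K6.H61.AL.Four
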