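import Pool.Agent.K6.H61.LE.Defs

set_option autoImplicit false

/-! # Families of groups generated by monomials in an integer: definitions -/

namespace Pool.Agent.K6.H61.AL

open NumberField Finset
open Pool.Agent.K6.H61.LE (FrobIn InS)

/-- The data of Lenstra's problem for a family of groups: a number field `F`, a subset `C` of its
automorphism group, an integer `k ≥ 1`, and an arbitrary set `G` of pairs `(w, r)` of a nonzero rational
and an integer. The groups are generated by the numbers `w n ^ r`, `(w, r) ∈ G`. -/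
structure Mono where
  /-- the field -/
  F : IntermediateField ℚ (AlgebraicClosure ℚ)
  [nf : NumberField F]
  /-- the set of automorphisms -/
  C : Set (F ≃ₐ[ℚ] F)
  /-- the exponents and coefficients of the generators -/
  G : Set (ℚˣ × ℤ)
  /-- the bound for the index -/
  k : ℕ
  k_pos : 0 < k

attribute [instance] Mono.nf

namespace Mono

variable (A : Mono)

/-- the group generated by the numbers `w n ^ r`, `(w, r) ∈ G` -/
def W (n : ℕ) : Subgroup ℚˣ :=
  Subgroup.closure {x : ℚˣ | ∃ v ∈ A.G, (x : ℚ) = (v.1 : ℚ) * (n : ℚ) ^ v.2}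

/-- `q` is in `𝒮(F, C, W(n), k)` -/
def Sat (n q : ℕ) : Prop := InS A.F A.C (A.W n) A.k q

end Mono

open Classical in
/-- the number of the primes `q ≤ x` of `S` which are in `𝒮(F_i, C_i, W_i(n), k_i)` for all `i` -/
noncomputable def cntM {s : ℕ} (A : Fin s → Mono) (S : Set ℕ) (n x : ℕ) : ℕ :=
  #((Icc 1 x).filter (fun q => q.Prime ∧ q ∈ S ∧ ∀ i, (A i).Sat n q))

open Classical in
/-- the proportion of the `b` in `[1, q - 1]` such that `q` is in `𝒮(F_i, C_i, W_i(b), k_i)` for all
`i` -/
noncomputable def propM {s : ℕ} (A : Fin s → Mono) (q : ℕ) : ℝ :=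
  (#((Icc 1 (q - 1)).filter (fun b => ∀ i, (A i).Sat b q)) : ℝ) / ((q - 1 : ℕ) : ℝ)

open Classical in
/-- the sum of these proportions over the primes `q ≤ x` of `S` -/
noncomputable def meanM {s : ℕ} (A : Fin s → Mono) (S : Set ℕ) (x : ℕ) : ℝ :=
  ∑ q ∈ (Icc 1 x).filter (fun q => q.Prime ∧ q ∈ S), propM A q

end Pool.Agent.K6.H61.AL
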