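import Pool.Agent.K6.H61.AL.Four
import Pool.Agent.K6.H61.AL.Fam
import Pool.Agent.K6.H61.AL.MonoDefs
import Pool.Agent.W171.LG.LenDatR

set_option autoImplicit false

/-! # The conditions of Lenstra's problem for families of groups generated by monomials -/

namespace Pool.Agent.K6.H61.AL

open Finset NumberField
open Pool.Agent.H730R2.AA (NT)
open Pool.Agent.H730R2.AA.Exp
open Pool.Agent.N430.PS (PB)
open Pool.Agent.K6.H61.LE (FrobIn InS)
open Pool.Agent.W171.LG (Un rd PW UnW IdxC un_iff unW_iff idx_iff unW_closure PW_closure rd_ne rd_mul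
  rd_inv rd_one un_mul un_inv un_nat rd_nat)
open Pool.Agent.H981R3.LN (ql Sk Sk_dvd Sk_prime)
open Four

section
variable {p : ℕ} [Fact p.Prime]

lemma un_pow {a : ℚ} (ha0 : a ≠ 0) (ha : Un p a) (r : ℕ) : Un p (a ^ r) := by
  rw [un_iff ha0] at ha
  rw [un_iff (pow_ne_zero _ ha0), padicValRat.pow, ha, mul_zero]

lemma un_zpow {a : ℚ} (ha0 : a ≠ 0) (ha : Un p a) (r : ℤ) : Un p (a ^ r) := by
  rcases Int.eq_nat_or_neg r with ⟨m, rfl | rfl⟩
  · rw [zpow_natCast]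
    exact un_pow ha0 ha m
  · rw [zpow_neg, zpow_natCast]
    exact un_inv (un_pow ha0 ha m)

lemma rd_pow {a : ℚ} (ha0 : a ≠ 0) (ha : Un p a) (r : ℕ) : rd p (a ^ r) = rd p a ^ r := by
  induction r with
  | zero => rw [pow_zero, pow_zero, rd_one]
  | succ r ih =>
    have h1 := un_pow ha0 ha r
    have h2 := un_pow ha0 ha (r + 1)
    rw [pow_succ] at h2
    rw [pow_succ, rd_mul h1 ha h2, ih, pow_succ]

lemma rd_zpow {a : ℚ} (ha0 : a ≠ 0) (ha : Un p a) (r : ℤ) : rd p (a ^ r) = rd p a ^ r := by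
  rcases Int.eq_nat_or_neg r with ⟨m, rfl | rfl⟩
  · rw [zpow_natCast, zpow_natCast]
    exact rd_pow ha0 ha m
  · rw [zpow_neg, zpow_neg, zpow_natCast, zpow_natCast, rd_inv (un_pow ha0 ha m)
      (un_inv (un_pow ha0 ha m)), rd_pow ha0 ha]

/-- all generators are `d`-th powers, `e = (p - 1) / d` -/
def PV (A : Mono) (p e : ℕ) (u : (ZMod p)ˣ) : Prop :=
  ∀ v ∈ A.G, (rd p (v.1 : ℚ) * ((u ^ v.2 : (ZMod p)ˣ) : ZMod p)) ^ e = 1

/-- the subgroup of the units whose `r`-th powers, `(w, r) ∈ G`, are `d`-th powers -/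
def KV (A : Mono) (p e : ℕ) : Subgroup (ZMod p)ˣ where
  carrier := {u | ∀ v ∈ A.G, (u ^ v.2) ^ e = 1}
  one_mem' := by
    intro v _
    rw [one_zpow, one_pow]
  mul_mem' := by
    intro a b ha hb v hv
    rw [mul_zpow, mul_pow, ha v hv, hb v hv, one_mul]
  inv_mem' := by
    intro a ha v hv
    rw [inv_zpow, inv_pow, ha v hv, inv_one]

lemma PV_coset (A : Mono) (e : ℕ) (u v : (ZMod p)ˣ) (hu : PV A p e u) :
    PV A p e v ↔ u⁻¹ * v ∈ KV A p e := by
  change _ ↔ ∀ w ∈ A.G, ((u⁻¹ * v) ^ w.2) ^ e = 1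
  refine forall₂_congr fun w hw => ?_
  have h1 := hu w hw
  have h2 : (rd p (w.1 : ℚ) * ((v ^ w.2 : (ZMod p)ˣ) : ZMod p)) ^ e =
      (rd p (w.1 : ℚ) * ((u ^ w.2 : (ZMod p)ˣ) : ZMod p)) ^ e *
        ((((u⁻¹ * v) ^ w.2) ^ e : (ZMod p)ˣ) : ZMod p) := by
    rw [Units.val_pow_eq_pow_val _ e, ← mul_pow, mul_assoc, ← Units.val_mul, mul_zpow, inv_zpow,
      mul_inv_cancel_left]
  rw [h2, h1, one_mul, Units.val_eq_one]

/-- the condition on the class modulo `p` -/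
def QV (A : Mono) (p : ℕ) (u : (ZMod p)ˣ) : Prop :=
  (FrobIn A.F A.C p ∧ ∀ v ∈ A.G, padicValRat p (v.1 : ℚ) = 0) ∧
    ∀ l ∈ Sk A.k (p - 1), ¬ PV A p ((p - 1) / ql A.k l) u

lemma sat_iff (A : Mono) {n : ℕ} (hn : n ≠ 0) (u : (ZMod p)ˣ) (hu : (u : ZMod p) = n) :
    A.Sat n p ↔ QV A p u := by
  have hn0 : (n : ℚ) ≠ 0 := by exact_mod_cast hn
  have hnu : (n : ZMod p) ≠ 0 := hu ▸ u.ne_zero
  have hun : Un p (n : ℚ) := un_nat.2 hnu
  set T : Set ℚˣ := {x : ℚˣ | ∃ v ∈ A.G, (x : ℚ) = (v.1 : ℚ) * (n : ℚ) ^ v.2} with hT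
  have hval : ∀ v : ℚˣ × ℤ, Un p ((v.1 : ℚ) * (n : ℚ) ^ v.2) ↔ Un p (v.1 : ℚ) := by
    intro v
    constructor
    · intro h
      have h2 := un_mul h (un_inv (un_zpow hn0 hun v.2))
      rwa [mul_assoc, mul_inv_cancel₀ (zpow_ne_zero _ hn0), mul_one] at h2
    · exact fun h => un_mul h (un_zpow hn0 hun v.2)
  have hT1 : ∀ v ∈ A.G, ∃ x ∈ T, (x : ℚ) = (v.1 : ℚ) * (n : ℚ) ^ v.2 := by
    intro v hv
    refine ⟨v.1 * (Units.mk0 (n : ℚ) hn0) ^ v.2, ⟨v, hv, ?_⟩, ?_⟩ <;>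
    · rw [Units.val_mul, Units.val_zpow_eq_zpow_val, Units.val_mk0]
  have h1 : (∀ w ∈ A.W n, padicValRat p (w : ℚ) = 0) ↔ ∀ v ∈ A.G, padicValRat p (v.1 : ℚ) = 0 := by
    rw [← unW_iff]
    constructor
    · intro h v hv
      obtain ⟨x, hx, hxv⟩ := hT1 v hv
      have h2 := h x (Subgroup.subset_closure hx)
      rw [hxv, hval] at h2
      exact (un_iff v.1.ne_zero).1 h2
    · intro h
      apply unW_closure
      rintro w ⟨v, hv, hw⟩
      rw [hw, hval, un_iff v.1.ne_zero]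
      exact h v hv
  unfold Mono.Sat InS QV
  rw [and_assoc]
  refine and_congr_right fun _ => ?_
  rw [h1]
  refine and_congr_right fun hv => ?_
  have hS : ∀ w ∈ T, Un p (w : ℚ) := by
    rintro w ⟨v, hv', hw⟩
    rw [hw, hval, un_iff v.1.ne_zero]
    exact hv v hv'
  have hU : UnW (A.W n) p := unW_closure hS
  refine (idx_iff hU A.k_pos.ne').trans ?_
  refine forall₂_congr fun l hl => not_congr ?_
  unfold Mono.W
  rw [PW_closure hS]
  unfold PV
  have hrd : ∀ v ∈ A.G, rd p ((v.1 : ℚ) * (n : ℚ) ^ v.2) =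
      rd p (v.1 : ℚ) * ((u ^ v.2 : (ZMod p)ˣ) : ZMod p) := by
    intro v hv'
    have h2 : Un p (v.1 : ℚ) := (un_iff v.1.ne_zero).2 (hv v hv')
    rw [rd_mul h2 (un_zpow hn0 hun v.2) ((hval v).2 h2), rd_zpow hn0 hun, rd_nat,
      Units.val_zpow_eq_zpow_val, hu]
  constructor
  · rintro ⟨-, h⟩ v hv'
    obtain ⟨x, hx, hxv⟩ := hT1 v hv'
    have h2 := h x hx
    rwa [hxv, hrd v hv'] at h2
  · intro h
    refine ⟨Sk_dvd hl, ?_⟩
    rintro w ⟨v, hv', hw⟩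
    rw [hw, hrd v hv']
    exact h v hv'

/-- the sum of the Fourier coefficients of the condition -/
lemma A1_QV (A : Mono) : A1 (ind (QV A p)) ≤ ((p - 1).divisors.card : ℝ) := by
  classical
  have hp1 : p - 1 ≠ 0 := (N_pos (p := p)).ne'
  have e : ind (QV A p) = fun u =>
      (if FrobIn A.F A.C p ∧ ∀ v ∈ A.G, padicValRat p (v.1 : ℚ) = 0 then (1 : ℂ) else 0) *
        ∏ l ∈ Sk A.k (p - 1), (1 - ind (PV A p ((p - 1) / ql A.k l)) u) := by
    funext u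
    unfold ind QV
    by_cases h1 : FrobIn A.F A.C p ∧ ∀ v ∈ A.G, padicValRat p (v.1 : ℚ) = 0
    · rw [if_pos h1, one_mul]
      by_cases h2 : ∀ l ∈ Sk A.k (p - 1), ¬ PV A p ((p - 1) / ql A.k l) u
      · rw [if_pos ⟨h1, h2⟩]
        symm
        refine Finset.prod_eq_one fun l hl => ?_
        rw [if_neg (h2 l hl), sub_zero]
      · rw [if_neg fun h => h2 h.2]
        push Not at h2
        obtain ⟨l, hl, h3⟩ := h2
        symm
        refine Finset.prod_eq_zero hl ?_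
        rw [if_pos h3, sub_self]
    · rw [if_neg h1, zero_mul, if_neg fun h => h1 h.1]
  rw [e]
  refine (A1_smul _ _).trans ?_
  have h1 : ‖(if FrobIn A.F A.C p ∧ ∀ v ∈ A.G, padicValRat p (v.1 : ℚ) = 0 then (1 : ℂ) else 0)‖ ≤
      1 := by
    split_ifs <;> simp
  have h2 : A1 (fun u : (ZMod p)ˣ =>
      ∏ l ∈ Sk A.k (p - 1), (1 - ind (PV A p ((p - 1) / ql A.k l)) u)) ≤
      ((p - 1).divisors.card : ℝ) := by
    refine (A1_prod _ _).trans ?_
    calc ∏ l ∈ Sk A.k (p - 1), A1 (fun u => 1 - ind (PV A p ((p - 1) / ql A.k l)) u)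
        ≤ ∏ _l ∈ Sk A.k (p - 1), (2 : ℝ) := by
          refine Finset.prod_le_prod (fun _ _ => A1_nonneg _) fun l _ => ?_
          have h3 := A1_one_sub (ind (PV A p ((p - 1) / ql A.k l)))
          have h4 := A1_coset (PV A p ((p - 1) / ql A.k l)) (KV A p ((p - 1) / ql A.k l))
            (fun u v hu => PV_coset A _ u v hu)
          linarith
      _ = (2 : ℝ) ^ #(Sk A.k (p - 1)) := by rw [Finset.prod_const]
      _ ≤ (2 : ℝ) ^ #(p - 1).primeFactors := by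
          apply pow_le_pow_right₀ (by norm_num)
          exact Finset.card_le_card (Finset.filter_subset _ _)
      _ ≤ _ := by
          exact_mod_cast two_pow_omega hp1
  calc _ ≤ 1 * ((p - 1).divisors.card : ℝ) :=
        mul_le_mul h1 h2 (A1_nonneg _) (by norm_num)
    _ = _ := one_mul _

end

end Pool.Agent.K6.H61.AL
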