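import Pool.Agent.K6.H61.AL.Len

set_option autoImplicit false

/-! # The local system of a family of groups -/

namespace Pool.Agent.K6.H61.AL

open Finset NumberField
open Pool.Agent.H730R2.AA (NT)
open Pool.Agent.H730R2.AA.Exp
open Pool.Agent.N430.PS (PB)
open Four

variable {s : ℕ}

/-- a nonnegative representative -/
def rep (p : ℕ) (n : ℤ) : ℕ := if 0 < n then n.toNat else (n % (p : ℤ)).toNat

lemma rep_pos {n : ℕ} (hn : n ≠ 0) (p : ℕ) : rep p (n : ℤ) = n := by
  unfold rep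
  rw [if_pos (by exact_mod_cast Nat.pos_of_ne_zero hn), Int.toNat_natCast]

lemma rep_cast {p : ℕ} (hp : p.Prime) (n : ℤ) : ((rep p n : ℕ) : ZMod p) = (n : ZMod p) := by
  unfold rep
  split_ifs with h
  · have h1 : ((n.toNat : ℕ) : ℤ) = n := Int.toNat_of_nonneg h.le
    calc ((n.toNat : ℕ) : ZMod p) = (((n.toNat : ℕ) : ℤ) : ZMod p) := by rw [Int.cast_natCast]
      _ = _ := by rw [h1]
  · have h1 : (((n % (p : ℤ)).toNat : ℕ) : ℤ) = n % (p : ℤ) :=
      Int.toNat_of_nonneg (Int.emod_nonneg _ (by exact_mod_cast hp.ne_zero))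
    calc (((n % (p : ℤ)).toNat : ℕ) : ZMod p) = ((((n % (p : ℤ)).toNat : ℕ) : ℤ) : ZMod p) := by
          rw [Int.cast_natCast]
      _ = ((n % (p : ℤ) : ℤ) : ZMod p) := by rw [h1]
      _ = _ := by rw [ZMod.intCast_mod]

/-- the condition at `p` -/
noncomputable def fL (A : Fin s → Mono) (S : Set ℕ) (p : ℕ) (n : ℤ) : ℝ :=
  open Classical in if p ∈ S ∧ ∀ i, (A i).Sat (rep p n) p then 1 else 0

/-- the mean value at `p` -/
noncomputable def gL (A : Fin s → Mono) (S : Set ℕ) (p : ℕ) : ℝ :=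
  open Classical in if p ∈ S then propM A p else 0

lemma propM_nonneg (A : Fin s → Mono) (p : ℕ) : 0 ≤ propM A p := by
  unfold propM
  positivity

lemma propM_le (A : Fin s → Mono) (p : ℕ) : propM A p ≤ 1 := by
  classical
  unfold propM
  have h1 : #((Icc 1 (p - 1)).filter (fun b => ∀ i, (A i).Sat b p)) ≤ p - 1 := by
    refine (card_le_card (filter_subset _ _)).trans ?_
    rw [Nat.card_Icc]
    omega
  apply div_le_one_of_le₀ _ (Nat.cast_nonneg _)
  exact_mod_cast h1

/-- the condition on the units -/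
def QA (A : Fin s → Mono) (S : Set ℕ) (p : ℕ) (u : (ZMod p)ˣ) : Prop :=
  p ∈ S ∧ ∀ i, QV (A i) p u

section
variable {p : ℕ} [Fact p.Prime]

lemma A1_QA (A : Fin s → Mono) (S : Set ℕ) :
    A1 (ind (QA A S p)) ≤ ((p - 1).divisors.card : ℝ) ^ s := by
  classical
  have e : ind (QA A S p) = fun u => (if p ∈ S then (1 : ℂ) else 0) * ∏ i : Fin s,
      ind (QV (A i) p) u := by
    funext u
    unfold ind QA
    by_cases h1 : p ∈ S
    · rw [if_pos h1, one_mul]
      by_cases h2 : ∀ i, QV (A i) p u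
      · rw [if_pos ⟨h1, h2⟩]
        symm
        exact Finset.prod_eq_one fun i _ => if_pos (h2 i)
      · rw [if_neg fun h => h2 h.2]
        push Not at h2
        obtain ⟨i, hi⟩ := h2
        symm
        exact Finset.prod_eq_zero (mem_univ i) (if_neg hi)
    · rw [if_neg h1, zero_mul, if_neg fun h => h1 h.1]
  rw [e]
  refine (A1_smul _ _).trans ?_
  have h1 : ‖(if p ∈ S then (1 : ℂ) else 0)‖ ≤ 1 := by split_ifs <;> simp
  have h2 : A1 (fun u : (ZMod p)ˣ => ∏ i : Fin s, ind (QV (A i) p) u) ≤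
      ((p - 1).divisors.card : ℝ) ^ s := by
    refine (A1_prod _ _).trans ?_
    calc ∏ i : Fin s, A1 (ind (QV (A i) p)) ≤ ∏ _i : Fin s, ((p - 1).divisors.card : ℝ) :=
          Finset.prod_le_prod (fun _ _ => A1_nonneg _) fun i _ => A1_QV (A i)
      _ = _ := by rw [Finset.prod_const, Finset.card_univ, Fintype.card_fin]
  calc _ ≤ 1 * ((p - 1).divisors.card : ℝ) ^ s := mul_le_mul h1 h2 (A1_nonneg _) (by norm_num)
    _ = _ := one_mul _

lemma QA_iff (A : Fin s → Mono) (S : Set ℕ) {n : ℕ} (hn : n ≠ 0) (u : (ZMod p)ˣ)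
    (hu : (u : ZMod p) = n) : (p ∈ S ∧ ∀ i, (A i).Sat n p) ↔ QA A S p u := by
  unfold QA
  refine and_congr_right fun _ => forall_congr' fun i => sat_iff (A i) hn u hu

lemma fc_one (A : Fin s → Mono) (S : Set ℕ) :
    fc (ind (QA A S p)) 1 = ((gL A S p : ℝ) : ℂ) := by
  classical
  have hp := Fact.out (p := p.Prime)
  have hN : (((p - 1 : ℕ) : ℝ) : ℂ) ≠ 0 := by exact_mod_cast (N_pos (p := p)).ne'
  have h0 : ((gL A S p : ℝ) : ℂ) = ((p - 1 : ℕ) : ℂ)⁻¹ *
      (#((Icc 1 (p - 1)).filter (fun b => p ∈ S ∧ ∀ i, (A i).Sat b p)) : ℂ) := by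
    unfold gL propM
    by_cases h : p ∈ S
    · rw [if_pos h]
      push_cast
      rw [div_eq_mul_inv, mul_comm]
      congr 3
      refine filter_congr fun b _ => ?_
      simp [h]
    · rw [if_neg h]
      have : (Icc 1 (p - 1)).filter (fun b => p ∈ S ∧ ∀ i, (A i).Sat b p) = ∅ := by
        apply filter_eq_empty_iff.2
        rintro b _ ⟨h1, -⟩
        exact h h1
      rw [this]
      simp
  rw [h0]
  unfold fc
  congr 1
  rw [card_filter, Nat.cast_sum]
  symm
  have hunit : ∀ a ∈ Icc 1 (p - 1), (a : ZMod p) ≠ 0 := by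
    intro a ha
    rw [mem_Icc] at ha
    intro h
    rw [ZMod.natCast_eq_zero_iff] at h
    have := Nat.le_of_dvd (by omega) h
    omega
  refine Finset.sum_bij' (fun a ha => Units.mk0 (a : ZMod p) (hunit a ha))
    (fun u _ => (u : ZMod p).val) ?_ ?_ ?_ ?_ ?_
  · intro a _; exact mem_univ _
  · intro u _
    rw [mem_Icc]
    have h2 := ZMod.val_lt (u : ZMod p)
    have h3 : (u : ZMod p).val ≠ 0 := by
      intro h
      rw [ZMod.val_eq_zero] at h
      exact u.ne_zero h
    omega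
  · intro a ha
    rw [mem_Icc] at ha
    exact ZMod.val_cast_of_lt (by omega)
  · intro u _
    apply Units.ext
    exact ZMod.natCast_zmod_val _
  · intro a ha
    rw [MulChar.one_apply_coe, mul_one]
    have ha0 : a ≠ 0 := by
      rw [mem_Icc] at ha
      omega
    have h1 := QA_iff A S ha0 (Units.mk0 (a : ZMod p) (hunit a ha)) (by simp)
    unfold ind
    by_cases h2 : p ∈ S ∧ ∀ i, (A i).Sat a p
    · rw [if_pos h2, if_pos (h1.1 h2), Nat.cast_one]
    · rw [if_neg h2, if_neg fun h => h2 (h1.2 h), Nat.cast_zero]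

end

lemma expandL (A : Fin s → Mono) (S : Set ℕ) (p : ℕ) (hp : p.Prime) :
    ∃ β : DirichletCharacter ℂ p → ℂ,
      (∀ n : ℤ, ((if (p : ℤ) ∣ n then 0 else fL A S p n - gL A S p : ℝ) : ℂ) =
        ∑ χ ∈ NT p, β χ * χ (n : ZMod p)) ∧
      ∑ χ ∈ NT p, ‖β χ‖ ≤ ((p - 1).divisors.card : ℝ) ^ s := by
  classical
  have : Fact p.Prime := ⟨hp⟩
  have hNT : (NT p) = univ.erase (1 : DirichletCharacter ℂ p) := by
    unfold NT
    ext χ
    simp
  refine ⟨fun χ => fc (ind (QA A S p)) χ, fun n => ?_, ?_⟩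
  · by_cases hn : (p : ℤ) ∣ n
    · rw [if_pos hn, Complex.ofReal_zero]
      symm
      refine Finset.sum_eq_zero fun χ _ => ?_
      rw [(ZMod.intCast_zmod_eq_zero_iff_dvd n p).2 hn, MulChar.map_zero, mul_zero]
    · rw [if_neg hn]
      have hn0 : IsUnit (n : ZMod p) := by
        rw [isUnit_iff_ne_zero, Ne, ZMod.intCast_zmod_eq_zero_iff_dvd]
        exact hn
      obtain ⟨u, hu⟩ := hn0
      have hr : (u : ZMod p) = (rep p n : ℕ) := by rw [rep_cast hp n, hu]
      have hr0 : rep p n ≠ 0 := by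
        intro h
        rw [h, Nat.cast_zero] at hr
        exact u.ne_zero hr
      have h1 : ((fL A S p n : ℝ) : ℂ) = ind (QA A S p) u := by
        have h2 := QA_iff A S hr0 u hr
        unfold fL ind
        by_cases h3 : p ∈ S ∧ ∀ i, (A i).Sat (rep p n) p
        · rw [if_pos h3, if_pos (h2.1 h3), Complex.ofReal_one]
        · rw [if_neg h3, if_neg fun h => h3 (h2.2 h), Complex.ofReal_zero]
      have hinv := fc_inv (p := p) (ind (QA A S p)) u
      rw [← add_sum_erase univ _ (mem_univ (1 : DirichletCharacter ℂ p)), fc_one,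
        MulChar.one_apply_coe, mul_one] at hinv
      rw [Complex.ofReal_sub, h1, ← hinv, hNT, ← hu]
      ring
  · refine le_trans ?_ (A1_QA A S)
    unfold A1
    exact Finset.sum_le_sum_of_subset_of_nonneg (subset_univ _) fun _ _ _ => norm_nonneg _

/-- the local system of a tuple of families and a set of primes -/
noncomputable def mkLoc (A : Fin s → Mono) (S : Set ℕ) : Loc s where
  f := fL A S
  g := gL A S
  f0 := by
    intro p n
    unfold fL
    split_ifs <;> norm_num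
  f1 := by
    intro p n
    unfold fL
    split_ifs <;> norm_num
  g0 := by
    intro p
    unfold gL
    split_ifs
    · exact propM_nonneg A p
    · exact le_rfl
  g1 := by
    intro p
    unfold gL
    split_ifs
    · exact propM_le A p
    · exact zero_le_one
  expand := expandL A S

lemma S_eq (A : Fin s → Mono) (S : Set ℕ) {n : ℕ} (hn : n ≠ 0) (x : ℕ) :
    (mkLoc A S).S (n : ℤ) x = (cntM A S n x : ℝ) := by
  classical
  unfold Loc.S cntM mkLoc fL
  simp only
  rw [← Finset.sum_filter, Finset.sum_const, nsmul_eq_mul, mul_one]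
  congr 2
  ext q
  simp only [PB, mem_filter, mem_range, mem_Icc, rep_pos hn]
  constructor
  · rintro ⟨⟨h1, h2⟩, h3⟩
    exact ⟨⟨h2.one_le, by omega⟩, h2, h3⟩
  · rintro ⟨⟨h1, h2⟩, h3, h4⟩
    exact ⟨⟨by omega, h3⟩, h4⟩

lemma E_eq (A : Fin s → Mono) (S : Set ℕ) (x : ℕ) : (mkLoc A S).E x = meanM A S x := by
  classical
  unfold Loc.E meanM mkLoc gL
  simp only
  rw [← Finset.sum_filter]
  apply Finset.sum_congr _ fun _ _ => rfl
  ext q
  simp only [PB, mem_filter, mem_range, mem_Icc]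
  constructor
  · rintro ⟨⟨h1, h2⟩, h3⟩
    exact ⟨⟨h2.one_le, by omega⟩, h2, h3⟩
  · rintro ⟨⟨h1, h2⟩, h3, h4⟩
    exact ⟨⟨by omega, h3⟩, h4⟩

end Pool.Agent.K6.H61.AL
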