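import Pool.Agent.K6.H61.AL.Fam

set_option autoImplicit false

/-! # The exceptional set at one `x`, with an average bound for the divisors -/

namespace Pool.Agent.K6.H61.AL

open Finset Filter
open Pool.Agent.N430.PS (PB)
open Pool.Agent.K6.H61.AF (PI)

/-- **The exceptional set at one `x`.** -/
theorem oneX2 (s : ℕ) (δ : ℝ) (hδ : 0 < δ) (hδ1 : δ ≤ 1) : ∃ x₀ : ℕ, ∀ x : ℕ, x₀ ≤ x →
    ∀ (ι : Type) (Ω : Finset ι) (v : ι → ℤ) (D : Loc s),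
    ∀ Δ : ℕ → ℕ → ℝ, (∀ p q, 0 ≤ Δ p q) →
    (∀ p ∈ PI (Nat.sqrt x) x, ∀ q ∈ PI (Nat.sqrt x) x, p ≠ q →
      ∀ χ : DirichletCharacter ℂ p, χ ≠ 1 → ∀ ψ : DirichletCharacter ℂ q, ψ ≠ 1 →
      ‖∑ ω ∈ Ω, χ (v ω : ZMod p) * ψ (v ω : ZMod q)‖ ≤ Δ p q) →
    ∑ p ∈ PI (Nat.sqrt x) x, ∑ q ∈ (PI (Nat.sqrt x) x).erase p, Δ p q ≤ (x : ℝ) ^ (2 - δ) * #Ω →
    (∑ ω ∈ Ω, (#((PI (Nat.sqrt x) x).filter (fun p : ℕ => (p : ℤ) ∣ v ω)) : ℝ) ≤
      (x : ℝ) ^ (1 - δ) * #Ω) →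
    (#(Ω.filter (fun ω => (x : ℝ) ^ (1 - δ / 8) <
      |D.S (v ω) x - D.E x|)) : ℝ) ≤ (x : ℝ) ^ (-(δ / 4)) * #Ω := by
  classical
  obtain ⟨C, hC, hτ⟩ := divisor_bound_pow s (δ / 8) (by positivity)
  have hT : ∀ᶠ x : ℕ in atTop, max 16 (16 * C ^ 2) ≤ (x : ℝ) ^ (δ / 4) :=
    ((tendsto_rpow_atTop (by positivity)).comp tendsto_natCast_atTop_atTop).eventually_ge_atTop _
  obtain ⟨x₀, hx₀⟩ := eventually_atTop.1 (hT.and (eventually_ge_atTop 1))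
  refine ⟨x₀, fun x hx ι Ω v D Δ hΔ0 hΔ hsum hdiv => ?_⟩
  obtain ⟨hT, hx1⟩ := hx₀ x hx
  have hT16 : 16 ≤ (x : ℝ) ^ (δ / 4) := (le_max_left _ _).trans hT
  have hTC : 16 * C ^ 2 ≤ (x : ℝ) ^ (δ / 4) := (le_max_right _ _).trans hT
  have hx1' : (1 : ℝ) ≤ x := by exact_mod_cast hx1
  have hx0 : (0 : ℝ) < x := by linarith
  have hge : ∀ e : ℝ, δ / 4 ≤ e → 16 ≤ (x : ℝ) ^ e := fun e he =>
    hT16.trans (Real.rpow_le_rpow_of_exponent_le hx1' he)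
  set S := PI (Nat.sqrt x) x with hSdef
  have hSp : ∀ p ∈ S, p.Prime := fun p hp => (mem_filter.1 hp).2
  have hSx : ∀ p ∈ S, p ≤ x := fun p hp => (mem_Ioc.1 (mem_filter.1 hp).1).2
  have hScard : (#S : ℝ) ≤ x := by
    have h1 : #S ≤ x := by
      refine (card_filter_le _ _).trans ?_
      rw [Nat.card_Ioc]
      omega
    exact_mod_cast h1
  have hΩ0 : (0 : ℝ) ≤ #Ω := Nat.cast_nonneg _
  have hτS : ∀ p ∈ S, ((p - 1).divisors.card : ℝ) ^ s ≤ C * (x : ℝ) ^ (δ / 8) := by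
    intro p hp
    have h2 := (hSp p hp).two_le
    refine (hτ (p - 1) (by omega)).trans ?_
    apply mul_le_mul_of_nonneg_left _ hC.le
    apply Real.rpow_le_rpow (Nat.cast_nonneg _) _ (by positivity)
    have h3 := hSx p hp
    exact_mod_cast (by omega : p - 1 ≤ x)
  -- the variance
  have hV := var_le Ω v D S hSp Δ hΔ0 hΔ
  have hV2 : ∑ ω ∈ Ω, (∑ p ∈ S, D.k p (v ω)) ^ 2 ≤
      (x + C ^ 2 * (x : ℝ) ^ (2 - 3 * δ / 4)) * #Ω := by
    refine hV.trans ?_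
    have h1 : ∑ p ∈ S, ∑ q ∈ S.erase p,
        ((p - 1).divisors.card : ℝ) ^ s * ((q - 1).divisors.card : ℝ) ^ s * Δ p q ≤
        (C * (x : ℝ) ^ (δ / 8)) ^ 2 * ((x : ℝ) ^ (2 - δ) * #Ω) := by
      refine le_trans ?_ (mul_le_mul_of_nonneg_left hsum (by positivity))
      rw [Finset.mul_sum]
      refine Finset.sum_le_sum fun p hp => ?_
      rw [Finset.mul_sum]
      refine Finset.sum_le_sum fun q hq => ?_
      apply mul_le_mul_of_nonneg_right _ (hΔ0 p q)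
      rw [sq]
      exact mul_le_mul (hτS p hp) (hτS q (Finset.mem_of_mem_erase hq)) (by positivity)
        (by positivity)
    have h2 : (C * (x : ℝ) ^ (δ / 8)) ^ 2 * ((x : ℝ) ^ (2 - δ) * #Ω) =
        C ^ 2 * (x : ℝ) ^ (2 - 3 * δ / 4) * #Ω := by
      have e1 : (x : ℝ) ^ (2 - 3 * δ / 4) = (x : ℝ) ^ (δ / 8) * (x : ℝ) ^ (δ / 8) * (x : ℝ) ^ (2 - δ) := by
        rw [← Real.rpow_add hx0, ← Real.rpow_add hx0]
        congr 1
        ring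
      rw [e1]
      ring
    rw [h2] at h1
    have h3 : (#S : ℝ) * #Ω ≤ x * #Ω := mul_le_mul_of_nonneg_right hScard hΩ0
    linarith
  -- the exceptional set
  set L : ℝ := (x : ℝ) ^ (1 - δ / 8) with hL
  have hL0 : 0 < L := by positivity
  set W : Finset ι := Ω.filter (fun ω => L / 2 ≤ |∑ p ∈ S, D.k p (v ω)|) with hW
  set Z : Finset ι := Ω.filter (fun ω =>
    L / 8 ≤ (#(S.filter (fun p : ℕ => (p : ℤ) ∣ v ω)) : ℝ)) with hZ
  have hsqrt : (Nat.sqrt x : ℝ) ≤ L / 4 := by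
    have h1 : (Nat.sqrt x : ℝ) ≤ (x : ℝ) ^ (1 / 2 : ℝ) := by
      rw [← Real.sqrt_eq_rpow]
      exact Real.nat_sqrt_le_real_sqrt
    have h2 : L = (x : ℝ) ^ (1 / 2 : ℝ) * (x : ℝ) ^ (1 / 2 - δ / 8) := by
      rw [hL, ← Real.rpow_add hx0]
      congr 1
      ring
    have h3 := hge (1 / 2 - δ / 8) (by linarith)
    have h4 : 0 ≤ (x : ℝ) ^ (1 / 2 : ℝ) := by positivity
    rw [h2]
    nlinarith
  have hpow : (x : ℝ) ^ (1 - δ) ≤ L / 4 := by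
    have h2 : L = (x : ℝ) ^ (1 - δ) * (x : ℝ) ^ (7 * δ / 8) := by
      rw [hL, ← Real.rpow_add hx0]
      congr 1
      ring
    have h3 := hge (7 * δ / 8) (by linarith)
    have h4 : 0 ≤ (x : ℝ) ^ (1 - δ) := by positivity
    rw [h2]
    nlinarith
  have hsub : Ω.filter (fun ω => L < |D.S (v ω) x - D.E x|) ⊆ Z ∪ W := by
    intro ω hω
    rw [mem_filter] at hω
    rw [mem_union, hZ, hW, mem_filter, mem_filter]
    by_cases h0 : L / 8 ≤ (#(S.filter (fun p : ℕ => (p : ℤ) ∣ v ω)) : ℝ)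
    · exact Or.inl ⟨hω.1, h0⟩
    · right
      refine ⟨hω.1, ?_⟩
      have h1 := diffZ2 D (v ω) (Nat.sqrt x) x (Nat.sqrt_le_self x)
      have h3 := hω.2
      rw [← hSdef] at h1
      linarith
  have hWc : (#W : ℝ) * (L / 2) ^ 2 ≤ (x + C ^ 2 * (x : ℝ) ^ (2 - 3 * δ / 4)) * #Ω := by
    refine le_trans ?_ hV2
    calc (#W : ℝ) * (L / 2) ^ 2 = ∑ ω ∈ W, (L / 2) ^ 2 := by rw [Finset.sum_const, nsmul_eq_mul]
      _ ≤ ∑ ω ∈ W, (∑ p ∈ S, D.k p (v ω)) ^ 2 := by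
          apply Finset.sum_le_sum
          intro ω hω
          rw [← sq_abs (∑ p ∈ S, D.k p (v ω))]
          exact pow_le_pow_left₀ (by positivity) (mem_filter.1 hω).2 2
      _ ≤ _ := Finset.sum_le_sum_of_subset_of_nonneg (Finset.filter_subset _ _)
          fun _ _ _ => sq_nonneg _
  have hL2 : (L / 2) ^ 2 = (x : ℝ) ^ (2 - δ / 4) / 4 := by
    have : L ^ 2 = (x : ℝ) ^ (2 - δ / 4) := by
      rw [hL, ← Real.rpow_natCast, ← Real.rpow_mul hx0.le]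
      congr 1
      push_cast
      ring
    rw [div_pow, this]
    norm_num
  have hW2 : (#W : ℝ) ≤ (x : ℝ) ^ (-(δ / 4)) / 2 * #Ω := by
    have hP0 : 0 < (x : ℝ) ^ (2 - δ / 4) / 4 := by positivity
    have h1 : (x + C ^ 2 * (x : ℝ) ^ (2 - 3 * δ / 4)) ≤
        (x : ℝ) ^ (-(δ / 4)) / 2 * ((x : ℝ) ^ (2 - δ / 4) / 4) := by
      have e1 : (x : ℝ) ^ (-(δ / 4)) * (x : ℝ) ^ (2 - δ / 4) = (x : ℝ) ^ (2 - δ / 2) := by
        rw [← Real.rpow_add hx0]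
        congr 1
        ring
      have e2 : (x : ℝ) ^ (2 - δ / 2) = (x : ℝ) * (x : ℝ) ^ (1 - δ / 2) := by
        conv_rhs => rw [← Real.rpow_one (x : ℝ), ← Real.rpow_mul hx0.le, one_mul, ← Real.rpow_add hx0]
        congr 1
        ring
      have e3 : (x : ℝ) ^ (2 - δ / 2) = (x : ℝ) ^ (2 - 3 * δ / 4) * (x : ℝ) ^ (δ / 4) := by
        rw [← Real.rpow_add hx0]
        congr 1
        ring
      have h3 := hge (1 - δ / 2) (by linarith)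
      have h4 : x * 16 ≤ (x : ℝ) ^ (2 - δ / 2) := by
        rw [e2]
        exact mul_le_mul_of_nonneg_left h3 hx0.le
      have h5 : (x : ℝ) ^ (2 - 3 * δ / 4) * (16 * C ^ 2) ≤ (x : ℝ) ^ (2 - δ / 2) := by
        rw [e3]
        exact mul_le_mul_of_nonneg_left hTC (by positivity)
      have e4 : (x : ℝ) ^ (-(δ / 4)) / 2 * ((x : ℝ) ^ (2 - δ / 4) / 4) = (x : ℝ) ^ (2 - δ / 2) / 8 := by
        rw [← e1]
        ring
      rw [e4]
      linarith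
    rw [hL2] at hWc
    have h2 : (#W : ℝ) * ((x : ℝ) ^ (2 - δ / 4) / 4) ≤
        ((x : ℝ) ^ (-(δ / 4)) / 2 * #Ω) * ((x : ℝ) ^ (2 - δ / 4) / 4) := by
      refine hWc.trans ?_
      have := mul_le_mul_of_nonneg_right h1 hΩ0
      linarith
    exact le_of_mul_le_mul_right h2 hP0
  have hZ2 : (#Z : ℝ) ≤ (x : ℝ) ^ (-(δ / 4)) / 2 * #Ω := by
    have h1 : (#Z : ℝ) * (L / 8) ≤ (x : ℝ) ^ (1 - δ) * #Ω := by
      refine le_trans ?_ hdiv
      calc (#Z : ℝ) * (L / 8) = ∑ ω ∈ Z, (L / 8) := by rw [Finset.sum_const, nsmul_eq_mul]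
        _ ≤ ∑ ω ∈ Z, (#(S.filter (fun p : ℕ => (p : ℤ) ∣ v ω)) : ℝ) :=
            Finset.sum_le_sum fun ω hω => (mem_filter.1 hω).2
        _ ≤ _ := Finset.sum_le_sum_of_subset_of_nonneg (Finset.filter_subset _ _)
            fun _ _ _ => Nat.cast_nonneg _
    have h2 : (x : ℝ) ^ (1 - δ) ≤ (x : ℝ) ^ (-(δ / 4)) / 2 * (L / 8) := by
      have e1 : (x : ℝ) ^ (-(δ / 4)) * L = (x : ℝ) ^ (1 - δ) * (x : ℝ) ^ (5 * δ / 8) := by
        rw [hL, ← Real.rpow_add hx0, ← Real.rpow_add hx0]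
        congr 1
        ring
      have h3 := hge (5 * δ / 8) (by linarith)
      have h4 : 0 ≤ (x : ℝ) ^ (1 - δ) := by positivity
      have h5 := mul_le_mul_of_nonneg_left h3 h4
      linarith
    have h3 : (#Z : ℝ) * (L / 8) ≤ ((x : ℝ) ^ (-(δ / 4)) / 2 * #Ω) * (L / 8) := by
      have := mul_le_mul_of_nonneg_right h2 hΩ0
      linarith
    exact le_of_mul_le_mul_right h3 (by positivity)
  have h1 : (#(Ω.filter (fun ω => L < |D.S (v ω) x - D.E x|)) : ℝ) ≤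
      (#Z : ℝ) + #W := by
    exact_mod_cast (card_le_card hsub).trans (card_union_le _ _)
  linarith

end Pool.Agent.K6.H61.AL
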