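import Pool.Agent.Y165.HN.Burg
import Pool.Agent.K6.H61.AL.OneX2
import Pool.Agent.K6.H61.AL.AllX
import Pool.Agent.K6.H61.AF.Prog

set_option autoImplicit false

/-! # Artin's conjecture for arbitrary arithmetic progressions -/

namespace Pool.Agent.K6.H61.AL

open Finset Filter
open Pool.Agent.N430.PS (PB)
open Pool.Agent.K6.H61.AF (PI burN prodC prod_complete pair_prog res_count primeDvd_card)
open Pool.Agent.H471R4.BW (Complete)
open Pool.Agent.N647.BU (sS)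

/-- **Arbitrary arithmetic progressions.** -/
theorem prog (s : ℕ) (η : ℝ) (hη : 0 < η) (hη1 : η ≤ 1 / 2) : ∃ c : ℝ, 0 < c ∧ ∃ X₀ : ℕ,
    ∀ X Y H : ℕ, X₀ ≤ X → X ≤ Y → (Y : ℝ) ^ (1 / 2 + η) ≤ H →
    ∀ a d : ℤ, d ≠ 0 → (d.natAbs.primeFactors.card : ℝ) ≤ (X : ℝ) ^ (1 - η) →
    ∀ D : Loc s,
    (#(open Classical in (Icc 1 H).filter (fun m : ℕ => ∃ x : ℕ, X ≤ x ∧ x ≤ Y ∧
      (x : ℝ) ^ (1 - c) < |D.S (a + d * (m : ℤ)) x - D.E x|)) : ℝ) ≤
      (X : ℝ) ^ (-c) * H := by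
  classical
  -- Burgess
  set η₁ : ℝ := η / 4 with hη₁d
  have hη₁ : 0 < η₁ := by positivity
  have hη₁8 : η₁ ≤ 1 / 8 := by linarith
  obtain ⟨k, hk⟩ := exists_nat_ge (max (1 / (2 * η₁)) 3)
  have hk1 : 1 / (2 * η₁) ≤ k := (le_max_left _ _).trans hk
  have hk3 : (3 : ℝ) ≤ k := (le_max_right _ _).trans hk
  have hk0 : (0 : ℝ) < k := by linarith
  have hkη : 1 / (2 * (k : ℝ)) ≤ η₁ := by
    rw [div_le_iff₀ (by positivity)] at hk1
    rw [div_le_iff₀ (by positivity)]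
    linarith
  obtain ⟨δ₁, hδ₁, hbur⟩ := burN η₁ hη₁ hη₁8 k (by exact_mod_cast (by linarith : (1 : ℝ) ≤ k)) hkη
    ((2 * (k : ℝ)) ^ 2) (by positivity)
  obtain ⟨N₀, hbur⟩ := eventually_atTop.1 hbur
  set δ : ℝ := min (1 / 4) (min (δ₁ / 2) (η / 2)) with hδd
  have hδ : 0 < δ := lt_min (by norm_num) (lt_min (by positivity) (by positivity))
  have hδ4 : δ ≤ 1 / 4 := min_le_left _ _
  have hδδ₁ : δ ≤ δ₁ / 2 := (min_le_right _ _).trans (min_le_left _ _)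
  have hδη : δ ≤ η / 2 := (min_le_right _ _).trans (min_le_right _ _)
  have hδ1 : δ ≤ 1 := by linarith
  obtain ⟨c, hc, -, R, X₀, hR, hall⟩ := allX s δ hδ hδ1
  obtain ⟨x₁, hone⟩ := oneX2 s δ hδ hδ1
  have hR1 : (1 : ℝ) ≤ R := by exact_mod_cast hR
  -- conditions on `z`
  have hev : ∀ᶠ z : ℕ in atTop, 8 * (R : ℝ) ≤ (z : ℝ) ^ δ ∧ (R : ℝ) ≤ (z : ℝ) ^ (η / 2) ∧
      2 * (z : ℝ) ^ (1 / 3 : ℝ) ≤ (z : ℝ) ^ (1 / 2 : ℝ) := by
    have e1 : ∀ᶠ z : ℝ in atTop, 8 * (R : ℝ) ≤ z ^ δ := (tendsto_rpow_atTop hδ).eventually_ge_atTop _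
    have e2 : ∀ᶠ z : ℝ in atTop, (R : ℝ) ≤ z ^ (η / 2) :=
      (tendsto_rpow_atTop (by positivity)).eventually_ge_atTop _
    have e3 : ∀ᶠ z : ℝ in atTop, 2 * z ^ (1 / 3 : ℝ) ≤ z ^ (1 / 2 : ℝ) := by
      filter_upwards [(tendsto_rpow_atTop (show (0 : ℝ) < 1 / 6 by norm_num)).eventually_ge_atTop 2,
        eventually_gt_atTop 0] with z h1 h2
      have : z ^ (1 / 2 : ℝ) = z ^ (1 / 6 : ℝ) * z ^ (1 / 3 : ℝ) := by
        rw [← Real.rpow_add h2]
        norm_num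
      rw [this]
      exact mul_le_mul_of_nonneg_right h1 (by positivity)
    exact (tendsto_natCast_atTop_atTop (R := ℝ)).eventually (e1.and (e2.and e3))
  obtain ⟨z₀, hz₀⟩ := eventually_atTop.1 hev
  refine ⟨c, hc, max X₀ (R * (max (max x₁ N₀) (max z₀ 1)) + 1),
    fun X Y H hX hXY hH a d hd hdω D => ?_⟩
  have hX0 : X₀ ≤ X := (le_max_left _ _).trans hX
  have hX1 : R * (max (max x₁ N₀) (max z₀ 1)) + 1 ≤ X := (le_max_right _ _).trans hX
  have hXpos : 1 ≤ X := by omega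
  have hcard : (#(Icc 1 H) : ℝ) = H := by simp
  have key := hall ℕ (Icc 1 H) (fun m => a + d * (m : ℤ)) D X Y hX0 hXY ?_
  · rw [hcard] at key
    exact key
  intro z hXz hzY
  have hzbig : max (max x₁ N₀) (max z₀ 1) ≤ z := by
    have h1 : R * max (max x₁ N₀) (max z₀ 1) < R * z := by omega
    exact (Nat.lt_of_mul_lt_mul_left h1).le
  have hzx : x₁ ≤ z := (le_max_left _ _).trans ((le_max_left _ _).trans hzbig)
  have hzN : N₀ ≤ z := (le_max_right _ _).trans ((le_max_left _ _).trans hzbig)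
  have hzz : z₀ ≤ z := (le_max_left _ _).trans ((le_max_right _ _).trans hzbig)
  have hz1 : 1 ≤ z := (le_max_right _ _).trans ((le_max_right _ _).trans hzbig)
  have hz1' : (1 : ℝ) ≤ z := by exact_mod_cast hz1
  have hz0 : (0 : ℝ) < z := by linarith
  obtain ⟨hT1, hT2, hT3⟩ := hz₀ z hzz
  have hXz' : (X : ℝ) ≤ R * z := by exact_mod_cast hXz
  have hzY' : (z : ℝ) ≤ R * Y := by exact_mod_cast hzY
  have hXr : (1 : ℝ) ≤ X := by exact_mod_cast hXpos
  have hYr : (1 : ℝ) ≤ Y := by exact_mod_cast hXpos.trans hXY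
  have hH0 : (0 : ℝ) ≤ H := Nat.cast_nonneg _
  have hzδ1 : 1 ≤ (z : ℝ) ^ δ := Real.one_le_rpow hz1' hδ.le
  -- the length
  have hHz : (z : ℝ) ^ (1 / 2 + η / 2) ≤ H := by
    refine le_trans ?_ hH
    have h1 : (z : ℝ) ^ (1 / 2 + η) ≤ R * (Y : ℝ) ^ (1 / 2 + η) := by
      calc (z : ℝ) ^ (1 / 2 + η) ≤ ((R : ℝ) * Y) ^ (1 / 2 + η) :=
            Real.rpow_le_rpow hz0.le hzY' (by linarith)
        _ = (R : ℝ) ^ (1 / 2 + η) * (Y : ℝ) ^ (1 / 2 + η) :=
            Real.mul_rpow (by linarith) (by linarith)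
        _ ≤ (R : ℝ) ^ (1 : ℝ) * (Y : ℝ) ^ (1 / 2 + η) := by
            apply mul_le_mul_of_nonneg_right _ (by positivity)
            exact Real.rpow_le_rpow_of_exponent_le hR1 (by linarith)
        _ = _ := by rw [Real.rpow_one]
    have h2 : (z : ℝ) ^ (1 / 2 + η) = (z : ℝ) ^ (1 / 2 + η / 2) * (z : ℝ) ^ (η / 2) := by
      rw [← Real.rpow_add hz0]
      congr 1
      ring
    rw [h2] at h1
    have h3 : (z : ℝ) ^ (1 / 2 + η / 2) * R ≤ (z : ℝ) ^ (1 / 2 + η / 2) * (z : ℝ) ^ (η / 2) :=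
      mul_le_mul_of_nonneg_left hT2 (by positivity)
    have h4 : (R : ℝ) * (z : ℝ) ^ (1 / 2 + η / 2) ≤ R * (Y : ℝ) ^ (1 / 2 + η) := by linarith
    exact le_of_mul_le_mul_left h4 (by linarith)
  have hωz : (d.natAbs.primeFactors.card : ℝ) ≤ R * (z : ℝ) ^ (1 - η) := by
    refine hdω.trans ?_
    calc (X : ℝ) ^ (1 - η) ≤ ((R : ℝ) * z) ^ (1 - η) :=
          Real.rpow_le_rpow (by linarith) hXz' (by linarith)
      _ = (R : ℝ) ^ (1 - η) * (z : ℝ) ^ (1 - η) := Real.mul_rpow (by linarith) hz0.le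
      _ ≤ (R : ℝ) ^ (1 : ℝ) * (z : ℝ) ^ (1 - η) := by
          apply mul_le_mul_of_nonneg_right _ (by positivity)
          exact Real.rpow_le_rpow_of_exponent_le hR1 (by linarith)
      _ = _ := by rw [Real.rpow_one]
  set S := PI (Nat.sqrt z) z with hS
  have hSp : ∀ p ∈ S, p.Prime := fun p hp => (mem_filter.1 hp).2
  have hSz : ∀ p ∈ S, p ≤ z := fun p hp => (mem_Ioc.1 (mem_filter.1 hp).1).2
  have hSs : ∀ p ∈ S, Nat.sqrt z < p := fun p hp => (mem_Ioc.1 (mem_filter.1 hp).1).1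
  have hSsr : ∀ p ∈ S, (z : ℝ) ^ (1 / 2 : ℝ) ≤ p := by
    intro p hp
    rw [← Real.sqrt_eq_rpow]
    have h1 : z < p * p := by
      have h2 := Nat.lt_succ_sqrt z
      have h3 : Nat.succ (Nat.sqrt z) ≤ p := hSs p hp
      exact h2.trans_le (Nat.mul_le_mul h3 h3)
    apply Real.sqrt_le_iff.2
    refine ⟨Nat.cast_nonneg _, ?_⟩
    rw [sq]
    exact_mod_cast h1.le
  have hScard : (#S : ℝ) ≤ z := by
    have h1 : #S ≤ z := by
      refine (card_filter_le _ _).trans ?_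
      rw [Nat.card_Ioc]
      omega
    exact_mod_cast h1
  set Δ : ℕ → ℕ → ℝ := fun p q => (if (p : ℤ) ∣ d then (H : ℝ) else 0) +
    (if (q : ℤ) ∣ d then (H : ℝ) else 0) + (z : ℝ) ^ (-δ₁) * H with hΔ
  have hSd : (#(S.filter (fun p : ℕ => (p : ℤ) ∣ d)) : ℝ) ≤ R * (z : ℝ) ^ (1 - η) := by
    refine le_trans ?_ hωz
    exact_mod_cast primeDvd_card d hd S hSp
  have hsumd : ∑ p ∈ S, (if (p : ℤ) ∣ d then (H : ℝ) else 0) ≤ R * (z : ℝ) ^ (1 - η) * H := by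
    rw [← Finset.sum_filter, Finset.sum_const, nsmul_eq_mul]
    exact mul_le_mul_of_nonneg_right hSd hH0
  have hres := hone z hzx ℕ (Icc 1 H) (fun m => a + d * (m : ℤ)) D Δ ?_ ?_ ?_ ?_
  · exact hres
  · intro p q
    simp only [hΔ]
    have h1 : (0 : ℝ) ≤ if (p : ℤ) ∣ d then (H : ℝ) else 0 := by split_ifs <;> linarith
    have h2 : (0 : ℝ) ≤ if (q : ℤ) ∣ d then (H : ℝ) else 0 := by split_ifs <;> linarith
    have h3 : (0 : ℝ) ≤ (z : ℝ) ^ (-δ₁) * H := by positivity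
    linarith
  · intro p hp q hq hpq χ hχ ψ hψ
    have hpp := hSp p hp
    have hqp := hSp q hq
    have : Fact p.Prime := ⟨hpp⟩
    have : Fact q.Prime := ⟨hqp⟩
    have htriv : ‖∑ m ∈ Icc 1 H, χ ((a + d * (m : ℤ) : ℤ) : ZMod p) *
        ψ ((a + d * (m : ℤ) : ℤ) : ZMod q)‖ ≤ H := by
      refine (norm_sum_le _ _).trans ?_
      calc ∑ m ∈ Icc 1 H, ‖χ ((a + d * (m : ℤ) : ℤ) : ZMod p) * ψ ((a + d * (m : ℤ) : ℤ) : ZMod q)‖
          ≤ ∑ m ∈ Icc 1 H, (1 : ℝ) := by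
            apply Finset.sum_le_sum
            intro m _
            rw [norm_mul]
            exact mul_le_one₀ (χ.norm_le_one _) (norm_nonneg _) (ψ.norm_le_one _)
        _ = H := by simp
    have h3 : (0 : ℝ) ≤ (z : ℝ) ^ (-δ₁) * H := by positivity
    simp only [hΔ]
    by_cases h1 : (p : ℤ) ∣ d
    · have h2 : (0 : ℝ) ≤ if (q : ℤ) ∣ d then (H : ℝ) else 0 := by split_ifs <;> linarith
      rw [if_pos h1]
      linarith
    by_cases h2 : (q : ℤ) ∣ d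
    · rw [if_pos h2, if_neg h1]
      linarith
    rw [if_neg h1, if_neg h2, zero_add, zero_add]
    obtain ⟨c', hc'⟩ := pair_prog p q hpq χ ψ a d h1 h2 H
    refine hc'.trans ?_
    have : NeZero p := ⟨hpp.ne_zero⟩
    have : NeZero q := ⟨hqp.ne_zero⟩
    have : NeZero (p * q) := ⟨mul_ne_zero hpp.ne_zero hqp.ne_zero⟩
    have hpqz : z ≤ p * q := by
      have h2 := Nat.lt_succ_sqrt z
      have h3 : Nat.succ (Nat.sqrt z) ≤ p := hSs p hp
      have h4 : Nat.succ (Nat.sqrt z) ≤ q := hSs q hq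
      exact h2.le.trans (Nat.mul_le_mul h3 h4)
    have hpq0 : (0 : ℝ) < ((p * q : ℕ) : ℝ) := by
      exact_mod_cast Nat.mul_pos hpp.pos hqp.pos
    have hpq1 : (1 : ℝ) ≤ ((p * q : ℕ) : ℝ) := by
      exact_mod_cast Nat.mul_pos hpp.pos hqp.pos
    have hpqz2 : ((p * q : ℕ) : ℝ) ≤ (z : ℝ) ^ (2 : ℝ) := by
      have h1 : p * q ≤ z * z := Nat.mul_le_mul (hSz p hp) (hSz q hq)
      have h2 : (z : ℝ) ^ (2 : ℝ) = ((z * z : ℕ) : ℝ) := by
        push_cast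
        rw [← sq]
        norm_cast
      rw [h2]
      exact_mod_cast h1
    have hB := hbur (p * q) (hzN.trans hpqz) (prodC p q χ ψ) ?_ c' H ?_
    · refine hB.trans ?_
      apply mul_le_mul_of_nonneg_right _ hH0
      apply Real.rpow_le_rpow_of_nonpos hz0 _ (by linarith)
      exact_mod_cast hpqz
    · intro B hB
      have hBz : (B : ℝ) ≤ (z : ℝ) ^ (1 / 2 : ℝ) := by
        refine hB.trans (le_trans ?_ hT3)
        apply mul_le_mul_of_nonneg_left _ (by norm_num)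
        calc ((p * q : ℕ) : ℝ) ^ (1 / (2 * (k : ℝ))) ≤ ((z : ℝ) ^ (2 : ℝ)) ^ (1 / (2 * (k : ℝ))) :=
              Real.rpow_le_rpow hpq0.le hpqz2 (by positivity)
          _ = (z : ℝ) ^ (1 / (k : ℝ)) := by
              rw [← Real.rpow_mul hz0.le]
              congr 1
              field_simp
          _ ≤ (z : ℝ) ^ (1 / 3 : ℝ) := by
              apply Real.rpow_le_rpow_of_exponent_le hz1'
              exact one_div_le_one_div_of_le (by norm_num) hk3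
      have hk1 : 1 ≤ k := by exact_mod_cast (by linarith : (1 : ℝ) ≤ k)
      apply prod_complete p q hpq χ ψ k B (2 * (k : ℝ)) (by positivity)
      · apply Pool.Agent.Y165.HN.fam_all p χ hχ k B hk1
        rw [Real.rpow_one]
        exact hBz.trans (hSsr p hp)
      · apply Pool.Agent.Y165.HN.fam_all q ψ hψ k B hk1
        rw [Real.rpow_one]
        exact hBz.trans (hSsr q hq)
    · refine le_trans ?_ hHz
      calc ((p * q : ℕ) : ℝ) ^ (1 / 4 + η₁) ≤ ((z : ℝ) ^ (2 : ℝ)) ^ (1 / 4 + η₁) :=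
            Real.rpow_le_rpow hpq0.le hpqz2 (by positivity)
        _ = (z : ℝ) ^ (1 / 2 + η / 2) := by
            rw [← Real.rpow_mul hz0.le]
            congr 1
            rw [hη₁d]
            ring
  · -- the sum of the bounds
    rw [hcard]
    have h1 : ∑ p ∈ S, ∑ q ∈ S.erase p, Δ p q ≤ ∑ p ∈ S, ∑ q ∈ S, Δ p q := by
      apply Finset.sum_le_sum
      intro p _
      apply Finset.sum_le_sum_of_subset_of_nonneg (Finset.erase_subset _ _)
      intro q _ _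
      simp only [hΔ]
      have h1 : (0 : ℝ) ≤ if (p : ℤ) ∣ d then (H : ℝ) else 0 := by split_ifs <;> linarith
      have h2 : (0 : ℝ) ≤ if (q : ℤ) ∣ d then (H : ℝ) else 0 := by split_ifs <;> linarith
      have h3 : (0 : ℝ) ≤ (z : ℝ) ^ (-δ₁) * H := by positivity
      linarith
    refine h1.trans ?_
    have h2 : ∑ p ∈ S, ∑ q ∈ S, Δ p q = #S * ∑ p ∈ S, (if (p : ℤ) ∣ d then (H : ℝ) else 0) +
        #S * ∑ p ∈ S, (if (p : ℤ) ∣ d then (H : ℝ) else 0) +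
        #S * (#S * ((z : ℝ) ^ (-δ₁) * H)) := by
      simp only [hΔ]
      simp_rw [Finset.sum_add_distrib, Finset.sum_const, nsmul_eq_mul]
      rw [← Finset.mul_sum]
    rw [h2]
    have hzH : 0 ≤ (z : ℝ) ^ (-δ₁) * H := by positivity
    have h3 : (#S : ℝ) * ∑ p ∈ S, (if (p : ℤ) ∣ d then (H : ℝ) else 0) ≤
        z * (R * (z : ℝ) ^ (1 - η) * H) := by
      apply mul_le_mul hScard hsumd _ hz0.le
      apply Finset.sum_nonneg
      intro p _
      split_ifs <;> linarith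
    have h4 : (#S : ℝ) * (#S * ((z : ℝ) ^ (-δ₁) * H)) ≤ z * (z * ((z : ℝ) ^ (-δ₁) * H)) := by
      apply mul_le_mul hScard _ (by positivity) hz0.le
      exact mul_le_mul_of_nonneg_right hScard hzH
    -- powers
    have e1 : (z : ℝ) * (R * (z : ℝ) ^ (1 - η) * H) ≤ (z : ℝ) ^ (2 - δ) * H / 4 := by
      have e2 : (z : ℝ) ^ (2 - δ) = z * (z : ℝ) ^ (1 - η) * (z : ℝ) ^ (η - δ) := by
        nth_rewrite 2 [← Real.rpow_one (z : ℝ)]
        rw [← Real.rpow_add hz0, ← Real.rpow_add hz0]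
        congr 1
        ring
      have e3 : (z : ℝ) ^ δ ≤ (z : ℝ) ^ (η - δ) :=
        Real.rpow_le_rpow_of_exponent_le hz1' (by linarith)
      have e4 : 4 * (R : ℝ) ≤ (z : ℝ) ^ (η - δ) := by linarith
      rw [e2]
      have e5 : 0 ≤ z * (z : ℝ) ^ (1 - η) * H := by positivity
      have e6 := mul_le_mul_of_nonneg_left e4 e5
      linarith
    have e2 : (z : ℝ) * (z * ((z : ℝ) ^ (-δ₁) * H)) ≤ (z : ℝ) ^ (2 - δ) * H / 4 := by
      have e2 : (z : ℝ) ^ (2 - δ) = z * (z * (z : ℝ) ^ (-δ₁)) * (z : ℝ) ^ (δ₁ - δ) := by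
        have e3 : (z : ℝ) * (z * (z : ℝ) ^ (-δ₁)) = (z : ℝ) ^ (2 - δ₁) := by
          have : (z : ℝ) ^ (2 - δ₁) = (z : ℝ) ^ (1 : ℝ) * ((z : ℝ) ^ (1 : ℝ) * (z : ℝ) ^ (-δ₁)) := by
            rw [← Real.rpow_add hz0, ← Real.rpow_add hz0]
            congr 1
            ring
          rw [this, Real.rpow_one]
        rw [e3, ← Real.rpow_add hz0]
        congr 1
        ring
      have e3 : (z : ℝ) ^ δ ≤ (z : ℝ) ^ (δ₁ - δ) :=
        Real.rpow_le_rpow_of_exponent_le hz1' (by linarith)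
      have e4 : 4 ≤ (z : ℝ) ^ (δ₁ - δ) := by linarith
      rw [e2]
      have e5 : 0 ≤ z * (z * (z : ℝ) ^ (-δ₁)) * H := by positivity
      have e6 := mul_le_mul_of_nonneg_left e4 e5
      linarith
    have e7 : 0 ≤ (z : ℝ) ^ (2 - δ) * H := by positivity
    linarith
  · -- the divisors
    rw [hcard]
    have h1 : ∑ m ∈ Icc 1 H, (#(S.filter (fun p : ℕ => (p : ℤ) ∣ a + d * (m : ℤ))) : ℝ) =
        ∑ p ∈ S, (#((Icc 1 H).filter (fun m : ℕ => (p : ℤ) ∣ a + d * (m : ℤ))) : ℝ) := by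
      simp_rw [Finset.card_filter]
      push_cast
      rw [Finset.sum_comm]
    rw [h1]
    have h2 : ∀ p ∈ S, (#((Icc 1 H).filter (fun m : ℕ => (p : ℤ) ∣ a + d * (m : ℤ))) : ℝ) ≤
        (if (p : ℤ) ∣ d then (H : ℝ) else 0) + 2 * (H / (z : ℝ) ^ (1 / 2 : ℝ)) := by
      intro p hp
      have hpp := hSp p hp
      have : Fact p.Prime := ⟨hpp⟩
      have hzh : 0 < (z : ℝ) ^ (1 / 2 : ℝ) := by positivity
      by_cases hd : (p : ℤ) ∣ d
      · rw [if_pos hd]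
        have h3 : #((Icc 1 H).filter (fun m : ℕ => (p : ℤ) ∣ a + d * (m : ℤ))) ≤ H := by
          refine (card_filter_le _ _).trans ?_
          simp
        have h4 : (#((Icc 1 H).filter (fun m : ℕ => (p : ℤ) ∣ a + d * (m : ℤ))) : ℝ) ≤ H := by
          exact_mod_cast h3
        have h5 : 0 ≤ 2 * (H / (z : ℝ) ^ (1 / 2 : ℝ)) := by positivity
        linarith
      · rw [if_neg hd, zero_add]
        have hd' : (d : ZMod p) ≠ 0 := by
          rwa [Ne, ZMod.intCast_zmod_eq_zero_iff_dvd]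
        have h3 : (Icc 1 H).filter (fun m : ℕ => (p : ℤ) ∣ a + d * (m : ℤ)) ⊆
            (Icc 1 H).filter (fun m : ℕ => (m : ZMod p) = -(a : ZMod p) * (d : ZMod p)⁻¹) := by
          intro m hm
          rw [mem_filter] at hm ⊢
          refine ⟨hm.1, ?_⟩
          have h4 := (ZMod.intCast_zmod_eq_zero_iff_dvd _ _).2 hm.2
          push_cast at h4
          rw [eq_mul_inv_iff_mul_eq₀ hd']
          linear_combination h4
        have h4 := (card_le_card h3).trans (res_count p H hpp.one_le _)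
        have h5 : ((H / p : ℕ) : ℝ) ≤ H / (z : ℝ) ^ (1 / 2 : ℝ) := by
          refine Nat.cast_div_le.trans ?_
          exact div_le_div_of_nonneg_left hH0 hzh (hSsr p hp)
        have h6 : 1 ≤ H / (z : ℝ) ^ (1 / 2 : ℝ) := by
          rw [one_le_div hzh]
          refine le_trans ?_ hHz
          exact Real.rpow_le_rpow_of_exponent_le hz1' (by linarith)
        have h7 : (#((Icc 1 H).filter (fun m : ℕ => (p : ℤ) ∣ a + d * (m : ℤ))) : ℝ) ≤
            ((H / p : ℕ) : ℝ) + 1 := by exact_mod_cast h4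
        linarith
    refine (Finset.sum_le_sum h2).trans ?_
    rw [Finset.sum_add_distrib, Finset.sum_const, nsmul_eq_mul]
    have h3 : (#S : ℝ) * (2 * (H / (z : ℝ) ^ (1 / 2 : ℝ))) ≤ 2 * (z : ℝ) ^ (1 / 2 : ℝ) * H := by
      have e1 : (z : ℝ) = (z : ℝ) ^ (1 / 2 : ℝ) * (z : ℝ) ^ (1 / 2 : ℝ) := by
        rw [← Real.rpow_add hz0]
        norm_num
      have hzh : 0 < (z : ℝ) ^ (1 / 2 : ℝ) := by positivity
      calc (#S : ℝ) * (2 * (H / (z : ℝ) ^ (1 / 2 : ℝ))) ≤ z * (2 * (H / (z : ℝ) ^ (1 / 2 : ℝ))) :=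
            mul_le_mul_of_nonneg_right hScard (by positivity)
        _ = (z : ℝ) ^ (1 / 2 : ℝ) * (z : ℝ) ^ (1 / 2 : ℝ) * (2 * (H / (z : ℝ) ^ (1 / 2 : ℝ))) := by
            rw [← e1]
        _ = 2 * (z : ℝ) ^ (1 / 2 : ℝ) * H := by field_simp
    have e1 : (R : ℝ) * (z : ℝ) ^ (1 - η) * H ≤ (z : ℝ) ^ (1 - δ) * H / 2 := by
      have e2 : (z : ℝ) ^ (1 - δ) = (z : ℝ) ^ (1 - η) * (z : ℝ) ^ (η - δ) := by
        rw [← Real.rpow_add hz0]
        congr 1
        ring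
      have e3 : (z : ℝ) ^ δ ≤ (z : ℝ) ^ (η - δ) :=
        Real.rpow_le_rpow_of_exponent_le hz1' (by linarith)
      have e4 : 2 * (R : ℝ) ≤ (z : ℝ) ^ (η - δ) := by linarith
      rw [e2]
      have e5 : 0 ≤ (z : ℝ) ^ (1 - η) * H := by positivity
      have e6 := mul_le_mul_of_nonneg_left e4 e5
      linarith
    have e2 : 2 * (z : ℝ) ^ (1 / 2 : ℝ) * H ≤ (z : ℝ) ^ (1 - δ) * H / 2 := by
      have e2 : (z : ℝ) ^ (1 - δ) = (z : ℝ) ^ (1 / 2 : ℝ) * (z : ℝ) ^ (1 / 2 - δ) := by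
        rw [← Real.rpow_add hz0]
        congr 1
        ring
      have e3 : (z : ℝ) ^ δ ≤ (z : ℝ) ^ (1 / 2 - δ) :=
        Real.rpow_le_rpow_of_exponent_le hz1' (by linarith)
      have e4 : 4 ≤ (z : ℝ) ^ (1 / 2 - δ) := by linarith
      rw [e2]
      have e5 : 0 ≤ (z : ℝ) ^ (1 / 2 : ℝ) * H := by positivity
      have e6 := mul_le_mul_of_nonneg_left e4 e5
      linarith
    linarith

end Pool.Agent.K6.H61.AL
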