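import Pool.Agent.K6.H61.AL.Mk
import Pool.Agent.K6.H61.AL.Prog

set_option autoImplicit false

/-! # Families of groups generated by monomials, on arithmetic progressions -/

namespace Pool.Agent.K6.H61.AL

open Finset

open Classical in
theorem partA (s : ℕ) (η : ℝ) (hη : 0 < η) : ∃ c : ℝ, 0 < c ∧ ∃ X₀ : ℕ,
    ∀ X Y H : ℕ, X₀ ≤ X → X ≤ Y → (Y : ℝ) ^ (1 / 2 + η) ≤ H →
    ∀ a d : ℕ, d ≠ 0 → (#d.primeFactors : ℝ) ≤ (X : ℝ) ^ (1 - η) →
    ∀ (A : Fin s → Mono) (S : Set ℕ),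
    (#((Icc 1 H).filter (fun m : ℕ => ∃ x : ℕ, X ≤ x ∧ x ≤ Y ∧
      (x : ℝ) ^ (1 - c) < |(cntM A S (a + d * m) x : ℝ) - meanM A S x|)) : ℝ) ≤
      (X : ℝ) ^ (-c) * H := by
  set η' : ℝ := min η (1 / 2) with hη'
  have h0 : 0 < η' := lt_min hη (by norm_num)
  obtain ⟨c, hc, X₀, h⟩ := prog s η' h0 (min_le_right _ _)
  refine ⟨c, hc, max X₀ 1, fun X Y H hX hXY hH a d hd hdX A S => ?_⟩
  have hX1 : (1 : ℝ) ≤ X := by exact_mod_cast (le_max_right _ _).trans hX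
  have hY1 : (1 : ℝ) ≤ Y := hX1.trans (by exact_mod_cast hXY)
  have h1 := h X Y H ((le_max_left _ _).trans hX) hXY
    ((Real.rpow_le_rpow_of_exponent_le hY1 (by linarith [min_le_left η (1 / 2)])).trans hH)
    (a : ℤ) (d : ℤ) (by exact_mod_cast hd) (by
      rw [Int.natAbs_natCast]
      exact hdX.trans (Real.rpow_le_rpow_of_exponent_le hX1 (by linarith [min_le_left η (1 / 2)])))
    (mkLoc A S)
  refine le_trans (le_of_eq ?_) h1
  congr 2
  refine filter_congr fun m hm => ?_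
  rw [mem_Icc] at hm
  have hn : a + d * m ≠ 0 := by
    have : 0 < d * m := Nat.mul_pos (Nat.pos_of_ne_zero hd) (by omega)
    omega
  have e : (a : ℤ) + (d : ℤ) * (m : ℤ) = ((a + d * m : ℕ) : ℤ) := by push_cast; ring
  refine exists_congr fun x => ?_
  rw [e, S_eq A S hn, E_eq]

end Pool.Agent.K6.H61.AL
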