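import Pool.Agent.K6.H61.AF.Prog

set_option autoImplicit false

/-! # Terms of an arithmetic progression not exactly divisible by a large prime -/

namespace Pool.Agent.K6.H61.AL

open Finset Filter
open Pool.Agent.K6.H61.AF (res_count)

lemma prod_small (P : ℕ) (ε : ℝ) (hε : 0 < ε) :
    ∃ Q : ℕ, P ≤ Q ∧ ∏ p ∈ (Ioc P Q).filter Nat.Prime, (1 - 1 / (p : ℝ)) ≤ ε := by
  classical
  set f : ℕ → ℝ := Set.indicator {p : ℕ | p.Prime} (fun n : ℕ => (1 : ℝ) / n) with hf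
  have hf0 : ∀ n, 0 ≤ f n := fun n => Set.indicator_nonneg (fun _ _ => by positivity) n
  have h1 : Tendsto (fun n => ∑ i ∈ range n, f i) atTop atTop :=
    (not_summable_iff_tendsto_nat_atTop_of_nonneg hf0).1 not_summable_one_div_on_primes
  obtain ⟨N, hN⟩ := (h1.eventually_ge_atTop (∑ i ∈ range (P + 1), f i + Real.log (1 / ε))).exists
  refine ⟨max N P, le_max_right _ _, ?_⟩
  set Q := max N P with hQ
  have h2 : ∑ i ∈ range (P + 1), f i + Real.log (1 / ε) ≤ ∑ i ∈ range (Q + 1), f i := by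
    refine hN.trans (Finset.sum_le_sum_of_subset_of_nonneg ?_ fun i _ _ => hf0 i)
    intro i hi
    rw [mem_range] at hi ⊢
    have := le_max_left N P
    omega
  have h3 : ∑ i ∈ range (Q + 1), f i = ∑ i ∈ range (P + 1), f i +
      ∑ p ∈ (Ioc P Q).filter Nat.Prime, 1 / (p : ℝ) := by
    have e1 : range (Q + 1) = range (P + 1) ∪ Ioc P Q := by
      ext i
      rw [mem_union, mem_range, mem_range, mem_Ioc]
      have := le_max_right N P
      omega
    have e2 : Disjoint (range (P + 1)) (Ioc P Q) := by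
      rw [Finset.disjoint_left]
      intro i hi hi2
      rw [mem_range] at hi
      rw [mem_Ioc] at hi2
      omega
    rw [e1, Finset.sum_union e2, Finset.sum_filter]
    congr 1
    refine Finset.sum_congr rfl fun i _ => ?_
    rw [hf]
    by_cases hi : i.Prime
    · rw [if_pos hi, Set.indicator_of_mem (by exact hi)]
    · rw [if_neg hi, Set.indicator_of_notMem (by exact hi)]
  calc ∏ p ∈ (Ioc P Q).filter Nat.Prime, (1 - 1 / (p : ℝ))
      ≤ ∏ p ∈ (Ioc P Q).filter Nat.Prime, Real.exp (-(1 / (p : ℝ))) := by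
        refine Finset.prod_le_prod (fun p hp => ?_) fun p _ => ?_
        · rw [mem_filter] at hp
          have : (1 : ℝ) ≤ p := by exact_mod_cast hp.2.one_le
          have h4 : 1 / (p : ℝ) ≤ 1 := by
            rw [div_le_one (by linarith)]
            exact this
          linarith
        · have := Real.add_one_le_exp (-(1 / (p : ℝ)))
          linarith
    _ = Real.exp (-∑ p ∈ (Ioc P Q).filter Nat.Prime, 1 / (p : ℝ)) := by
        rw [← Real.exp_sum, Finset.sum_neg_distrib]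
    _ ≤ Real.exp (-Real.log (1 / ε)) := by
        apply Real.exp_le_exp.2
        linarith
    _ = ε := by
        rw [Real.exp_neg, Real.exp_log (by positivity)]
        simp

/-- the terms prime to `M` -/
lemma count_coprime (a d M H : ℕ) (hM : M ≠ 0) (hdM : Nat.Coprime d M) :
    #((Icc 1 H).filter (fun m : ℕ => Nat.Coprime (a + d * m) M)) ≤ Nat.totient M * (H / M + 1) := by
  classical
  have : NeZero M := ⟨hM⟩
  have hu : IsUnit (d : ZMod M) := (ZMod.isUnit_iff_coprime d M).2 hdM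
  obtain ⟨u, hu'⟩ := hu
  set a' : ℕ := (((u⁻¹ : (ZMod M)ˣ) : ZMod M) * (a : ZMod M)).val with ha'
  have h1 : ((a' : ℕ) : ZMod M) = ((u⁻¹ : (ZMod M)ˣ) : ZMod M) * (a : ZMod M) :=
    ZMod.natCast_zmod_val _
  have h2 : ∀ m : ℕ, Nat.Coprime (a + d * m) M ↔ Nat.Coprime (a' + m) M := by
    intro m
    rw [← ZMod.isUnit_iff_coprime, ← ZMod.isUnit_iff_coprime]
    have e : ((a + d * m : ℕ) : ZMod M) = (u : ZMod M) * ((a' + m : ℕ) : ZMod M) := by
      push_cast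
      rw [h1, ← hu', mul_add, ← mul_assoc, Units.mul_inv, one_mul]
    rw [e]
    exact Units.isUnit_units_mul u _
  refine le_trans ?_ (Nat.Ico_filter_coprime_le (a' + 1) H hM)
  apply card_le_card_of_injOn (fun m => a' + m)
  · intro m hm
    rw [mem_coe, mem_filter, mem_Icc] at hm
    rw [mem_coe, mem_filter, mem_Ico]
    refine ⟨⟨by dsimp only; omega, by dsimp only; omega⟩, ?_⟩
    exact Nat.Coprime.symm ((h2 m).1 hm.2)
  · intro m _ m' _ h
    simpa using h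

/-- the terms divisible by `q` -/
lemma count_dvd (a d q H : ℕ) (hq : q ≠ 0) (hdq : Nat.Coprime d q) :
    #((Icc 1 H).filter (fun m : ℕ => q ∣ a + d * m)) ≤ H / q + 1 := by
  classical
  have : NeZero q := ⟨hq⟩
  have hu : IsUnit (d : ZMod q) := (ZMod.isUnit_iff_coprime d q).2 hdq
  obtain ⟨u, hu'⟩ := hu
  refine le_trans (card_le_card ?_) (res_count q H (Nat.one_le_iff_ne_zero.2 hq)
    (-(((u⁻¹ : (ZMod q)ˣ) : ZMod q) * (a : ZMod q))))
  intro m hm
  rw [mem_filter] at hm ⊢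
  refine ⟨hm.1, ?_⟩
  have h1 := (ZMod.natCast_eq_zero_iff (a + d * m) q).2 hm.2
  push_cast at h1
  rw [← hu'] at h1
  have h2 : (u : ZMod q) * m = -a := by
    rw [eq_neg_iff_add_eq_zero, add_comm]
    exact h1
  calc (m : ZMod q) = ((u⁻¹ : (ZMod q)ˣ) : ZMod q) * ((u : ZMod q) * m) := by
        rw [← mul_assoc, Units.inv_mul, one_mul]
    _ = _ := by rw [h2, mul_neg]

/-- **few terms are not exactly divisible by a large prime** -/
theorem exact_count (P w : ℕ) (ε : ℝ) (hε : 0 < ε) : ∃ H₀ : ℕ, ∀ H : ℕ, H₀ ≤ H →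
    ∀ a d : ℕ, d ≠ 0 → #d.primeFactors ≤ w →
    (#(open Classical in (Icc 1 H).filter (fun m : ℕ =>
      ¬ ∃ p : ℕ, p.Prime ∧ P < p ∧ p ∣ a + d * m ∧ ¬ p ^ 2 ∣ a + d * m)) : ℝ) ≤ ε * H := by
  classical
  obtain ⟨P₀', hP₀'⟩ := exists_nat_ge (4 / ε)
  set P₀ : ℕ := max (max P P₀') 1 with hP₀
  have hP₀1 : 1 ≤ P₀ := le_max_right _ _
  have hP₀P : P ≤ P₀ := (le_max_left _ _).trans (le_max_left _ _)
  have hP₀ε : 4 / ε ≤ P₀ := hP₀'.trans (by exact_mod_cast (le_max_right _ _).trans (le_max_left _ _))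
  obtain ⟨Q, hQP, hQ⟩ := prod_small P₀ (ε / (4 * 2 ^ w)) (by positivity)
  set T₁ : Finset ℕ := (Ioc P₀ Q).filter Nat.Prime with hT₁
  set M₁ : ℕ := ∏ p ∈ T₁, p with hM₁
  obtain ⟨H₀, hH₀⟩ := exists_nat_ge (2 * ((M₁ : ℝ) + Q) / ε)
  refine ⟨H₀, fun H hH a d hd hw => ?_⟩
  have hHr : (2 * ((M₁ : ℝ) + Q)) / ε ≤ H := hH₀.trans (by exact_mod_cast hH)
  set T : Finset ℕ := T₁.filter (fun p => ¬ p ∣ d) with hT
  set M : ℕ := ∏ p ∈ T, p with hMd
  have hTp : ∀ p ∈ T, p.Prime ∧ P₀ < p ∧ p ≤ Q ∧ ¬ p ∣ d := by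
    intro p hp
    rw [hT, mem_filter, hT₁, mem_filter, mem_Ioc] at hp
    exact ⟨hp.1.2, hp.1.1.1, hp.1.1.2, hp.2⟩
  have hM0 : M ≠ 0 := Finset.prod_ne_zero_iff.2 fun p hp => (hTp p hp).1.ne_zero
  have hMM : M ≤ M₁ := by
    rw [hMd, hM₁]
    refine Finset.prod_le_prod_of_subset_of_one_le' (filter_subset _ _) ?_
    intro p hp _
    rw [hT₁, mem_filter] at hp
    exact hp.2.one_le
  have hdM : Nat.Coprime d M := by
    apply Nat.Coprime.prod_right
    intro p hp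
    exact ((Nat.Prime.coprime_iff_not_dvd (hTp p hp).1).2 (hTp p hp).2.2.2).symm
  -- the totient
  have hφ : (Nat.totient M : ℝ) = M * ∏ p ∈ T, (1 - 1 / (p : ℝ)) := by
    have h1 : M.primeFactors = T := by
      rw [hMd]
      exact Nat.primeFactors_prod fun p hp => (hTp p hp).1
    have h2 := Nat.totient_eq_mul_prod_factors M
    rw [h1] at h2
    have h3 : ((Nat.totient M : ℚ) : ℝ) = ((M * ∏ p ∈ T, (1 - (p : ℚ)⁻¹) : ℚ) : ℝ) := by
      rw [h2]
    push_cast at h3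
    rw [h3]
    congr 1
    refine Finset.prod_congr rfl fun p _ => ?_
    rw [one_div]
  have hfac : ∀ p : ℕ, p.Prime → (1 / 2 : ℝ) ≤ 1 - 1 / (p : ℝ) ∧ 1 - 1 / (p : ℝ) ≤ 1 := by
    intro p hp
    have h2 : (2 : ℝ) ≤ p := by exact_mod_cast hp.two_le
    have h3 : 1 / (p : ℝ) ≤ 1 / 2 := one_div_le_one_div_of_le (by norm_num) h2
    have h4 : 0 ≤ 1 / (p : ℝ) := by positivity
    constructor <;> linarith
  have hprod : ∏ p ∈ T, (1 - 1 / (p : ℝ)) ≤ ε / 4 := by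
    have h1 : (∏ p ∈ T, (1 - 1 / (p : ℝ))) * (∏ p ∈ T₁.filter (fun p => ¬ ¬ p ∣ d),
        (1 - 1 / (p : ℝ))) = ∏ p ∈ T₁, (1 - 1 / (p : ℝ)) :=
      Finset.prod_filter_mul_prod_filter_not T₁ (fun p => ¬ p ∣ d) _
    have h2 : (1 / 2 : ℝ) ^ w ≤ ∏ p ∈ T₁.filter (fun p => ¬ ¬ p ∣ d), (1 - 1 / (p : ℝ)) := by
      have h3 : #(T₁.filter (fun p => ¬ ¬ p ∣ d)) ≤ w := by
        refine (card_le_card ?_).trans hw
        intro p hp
        rw [mem_filter, hT₁, mem_filter] at hp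
        rw [Nat.mem_primeFactors]
        exact ⟨hp.1.2, not_not.1 hp.2, hd⟩
      calc (1 / 2 : ℝ) ^ w ≤ (1 / 2 : ℝ) ^ #(T₁.filter (fun p => ¬ ¬ p ∣ d)) :=
            pow_le_pow_of_le_one (by norm_num) (by norm_num) h3
        _ = ∏ _p ∈ T₁.filter (fun p => ¬ ¬ p ∣ d), (1 / 2 : ℝ) := by rw [Finset.prod_const]
        _ ≤ _ := Finset.prod_le_prod (fun _ _ => by norm_num) fun p hp => by
            rw [mem_filter, hT₁, mem_filter] at hp
            exact (hfac p hp.1.2).1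
    have h0 : 0 ≤ ∏ p ∈ T, (1 - 1 / (p : ℝ)) := Finset.prod_nonneg fun p hp => by
      have := (hfac p (hTp p hp).1).1
      linarith
    have h4 : (∏ p ∈ T, (1 - 1 / (p : ℝ))) * (1 / 2 : ℝ) ^ w ≤ ε / (4 * 2 ^ w) :=
      (mul_le_mul_of_nonneg_left h2 h0).trans (h1.le.trans hQ)
    have h5 : (1 / 2 : ℝ) ^ w * 2 ^ w = 1 := by
      rw [← mul_pow]
      norm_num
    have h6 : (0 : ℝ) < 2 ^ w := by positivity
    calc ∏ p ∈ T, (1 - 1 / (p : ℝ)) = (∏ p ∈ T, (1 - 1 / (p : ℝ))) * (1 / 2 : ℝ) ^ w * 2 ^ w := by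
          rw [mul_assoc, h5, mul_one]
      _ ≤ ε / (4 * 2 ^ w) * 2 ^ w := mul_le_mul_of_nonneg_right h4 h6.le
      _ = ε / 4 := by field_simp
  -- the terms prime to `M`
  have hc1 : (#((Icc 1 H).filter (fun m : ℕ => Nat.Coprime (a + d * m) M)) : ℝ) ≤
      ε / 4 * H + M₁ := by
    have h1 := count_coprime a d M H hM0 hdM
    have h2 : ((Nat.totient M * (H / M + 1) : ℕ) : ℝ) ≤ (Nat.totient M : ℝ) * ((H : ℝ) / M + 1) := by
      push_cast
      apply mul_le_mul_of_nonneg_left _ (Nat.cast_nonneg _)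
      have := Nat.cast_div_le (α := ℝ) (m := H) (n := M)
      linarith
    have hMr : (0 : ℝ) < M := by exact_mod_cast Nat.pos_of_ne_zero hM0
    have h3 : (Nat.totient M : ℝ) * ((H : ℝ) / M + 1) = (∏ p ∈ T, (1 - 1 / (p : ℝ))) * H +
        Nat.totient M := by
      rw [mul_add, mul_one]
      congr 1
      rw [hφ]
      field_simp
    have h4 : (Nat.totient M : ℝ) ≤ M₁ := by exact_mod_cast (Nat.totient_le M).trans hMM
    have h5 : (∏ p ∈ T, (1 - 1 / (p : ℝ))) * H ≤ ε / 4 * H :=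
      mul_le_mul_of_nonneg_right hprod (Nat.cast_nonneg _)
    calc (#((Icc 1 H).filter (fun m : ℕ => Nat.Coprime (a + d * m) M)) : ℝ)
        ≤ ((Nat.totient M * (H / M + 1) : ℕ) : ℝ) := by exact_mod_cast h1
      _ ≤ _ := by linarith
  -- the terms divisible by a square
  have hc2 : ∀ p ∈ T, (#((Icc 1 H).filter (fun m : ℕ => p ^ 2 ∣ a + d * m)) : ℝ) ≤
      (H : ℝ) * (1 / (p : ℝ) ^ 2) + 1 := by
    intro p hp
    have hpp := (hTp p hp).1
    have h1 := count_dvd a d (p ^ 2) H (pow_ne_zero _ hpp.ne_zero)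
      (Nat.Coprime.pow_right 2 (((Nat.Prime.coprime_iff_not_dvd hpp).2 (hTp p hp).2.2.2).symm))
    have h2 := Nat.cast_div_le (α := ℝ) (m := H) (n := p ^ 2)
    calc (#((Icc 1 H).filter (fun m : ℕ => p ^ 2 ∣ a + d * m)) : ℝ)
        ≤ ((H / p ^ 2 + 1 : ℕ) : ℝ) := by exact_mod_cast h1
      _ = ((H / p ^ 2 : ℕ) : ℝ) + 1 := by push_cast; ring
      _ ≤ _ := by
        push_cast at h2
        rw [mul_one_div]
        linarith
  have hc3 : ∑ p ∈ T, (1 / (p : ℝ) ^ 2) ≤ 1 / (P₀ : ℝ) := by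
    have h1 : T ⊆ Ioo P₀ (Q + 1) := by
      intro p hp
      have := hTp p hp
      rw [mem_Ioo]
      omega
    have h2 : ∑ p ∈ T, (1 / (p : ℝ) ^ 2) ≤ ∑ p ∈ Ioc P₀ (max (P₀ + 1) Q), ((p : ℝ) ^ 2)⁻¹ := by
      simp only [one_div]
      refine Finset.sum_le_sum_of_subset_of_nonneg ?_ fun _ _ _ => by positivity
      intro p hp
      have := hTp p hp
      rw [mem_Ioc]
      exact ⟨this.2.1, this.2.2.1.trans (le_max_right _ _)⟩
    have h3 := sum_Ioc_inv_sq_le_sub (α := ℝ) (k := P₀) (n := max (P₀ + 1) Q) (by omega)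
      ((Nat.le_succ _).trans (le_max_left _ _))
    have h4 : (0 : ℝ) ≤ ((max (P₀ + 1) Q : ℕ) : ℝ)⁻¹ := by positivity
    rw [one_div]
    linarith
  have hcT : (#T : ℝ) ≤ Q := by
    have h1 : #T ≤ #(Icc 1 Q) := by
      apply card_le_card
      intro p hp
      have := hTp p hp
      rw [mem_Icc]
      exact ⟨this.1.one_le, this.2.2.1⟩
    rw [Nat.card_Icc] at h1
    exact_mod_cast (by omega : #T ≤ Q)
  have hcov : (Icc 1 H).filter (fun m : ℕ =>
      ¬ ∃ p : ℕ, p.Prime ∧ P < p ∧ p ∣ a + d * m ∧ ¬ p ^ 2 ∣ a + d * m) ⊆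
      (Icc 1 H).filter (fun m : ℕ => Nat.Coprime (a + d * m) M) ∪
        T.biUnion (fun p => (Icc 1 H).filter (fun m : ℕ => p ^ 2 ∣ a + d * m)) := by
    intro m hm
    rw [mem_filter] at hm
    rw [mem_union, mem_filter, mem_biUnion]
    by_cases h : Nat.Coprime (a + d * m) M
    · exact Or.inl ⟨hm.1, h⟩
    · right
      have h1 : ∃ p ∈ T, ¬ Nat.Coprime (a + d * m) p := by
        by_contra hc
        push Not at hc
        exact h (Nat.Coprime.prod_right hc)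
      obtain ⟨p, hp, hp1⟩ := h1
      have hpp := hTp p hp
      have h2 : p ∣ a + d * m := by
        by_contra hc
        exact hp1 ((Nat.Prime.coprime_iff_not_dvd hpp.1).2 hc).symm
      refine ⟨p, hp, mem_filter.2 ⟨hm.1, ?_⟩⟩
      by_contra hc
      exact hm.2 ⟨p, hpp.1, lt_of_le_of_lt hP₀P hpp.2.1, h2, hc⟩
  have hH0 : (0 : ℝ) ≤ H := Nat.cast_nonneg _
  have hP₀0 : (0 : ℝ) < P₀ := by exact_mod_cast hP₀1
  have h7 : 1 / (P₀ : ℝ) ≤ ε / 4 := by
    rw [div_le_iff₀ hP₀0]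
    rw [div_le_iff₀ hε] at hP₀ε
    linarith
  calc (#((Icc 1 H).filter (fun m : ℕ =>
      ¬ ∃ p : ℕ, p.Prime ∧ P < p ∧ p ∣ a + d * m ∧ ¬ p ^ 2 ∣ a + d * m)) : ℝ)
      ≤ (#((Icc 1 H).filter (fun m : ℕ => Nat.Coprime (a + d * m) M)) : ℝ) +
        ∑ p ∈ T, (#((Icc 1 H).filter (fun m : ℕ => p ^ 2 ∣ a + d * m)) : ℝ) := by
        have h8 := (card_le_card hcov).trans ((card_union_le _ _).trans
          (Nat.add_le_add_left card_biUnion_le _))
        exact_mod_cast h8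
    _ ≤ (ε / 4 * H + M₁) + ∑ p ∈ T, ((H : ℝ) * (1 / (p : ℝ) ^ 2) + 1) :=
        add_le_add hc1 (Finset.sum_le_sum hc2)
    _ = (ε / 4 * H + M₁) + (H * ∑ p ∈ T, (1 / (p : ℝ) ^ 2) + #T) := by
        rw [Finset.sum_add_distrib, ← Finset.mul_sum]
        simp
    _ ≤ (ε / 4 * H + M₁) + (H * (ε / 4) + Q) := by
        have := mul_le_mul_of_nonneg_left (hc3.trans h7) hH0
        linarith
    _ ≤ ε * H := by
        rw [div_le_iff₀ hε] at hHr
        nlinarith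

end Pool.Agent.K6.H61.AL
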