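import Pool.Agent.K6.H61.AL.Conv
import Pool.Agent.K6.H61.AL.Sieve
import Pool.Agent.H386R2.Artin.Average
import Pool.Agent.H386R2.Artin.FewBad

set_option autoImplicit false

/-! # Lenstra's density for the terms of a progression -/

namespace Pool.Agent.K6.H61.AL

open Finset Filter Topology
open Pool.Agent.W171.LG (aR)

open Classical in
theorem partB (η : ℝ) (hη : 0 < η) : ∃ c : ℝ, 0 < c ∧ ∀ A : Data, A.Admissible →
    ∀ ε : ℝ, 0 < ε → ∃ P X₁ : ℕ, ∀ X Y H : ℕ, X₁ ≤ X → X ≤ Y → (Y : ℝ) ^ (1 / 2 + η) ≤ H →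
    ∀ a d : ℕ, d ≠ 0 → (#d.primeFactors : ℝ) ≤ (X : ℝ) ^ (1 - η) →
    (#((Icc 1 H).filter (fun m : ℕ =>
      (∃ p : ℕ, p.Prime ∧ P < p ∧ p ∣ a + d * m ∧ ¬ p ^ 2 ∣ a + d * m) ∧
      ∃ x : ℕ, X ≤ x ∧ x ≤ Y ∧ ε * (Nat.primeCounting x : ℝ) <
        |(A.S (a + d * m) x : ℝ) -
          δ A.F A.C (A.W (a + d * m)) A.k * (Nat.primeCounting x : ℝ)|)) : ℝ) ≤
      (X : ℝ) ^ (-c) * H := by
  obtain ⟨c, hc, X₀, h⟩ := partA' 1 η hη
  refine ⟨c, hc, fun A hA ε hε => ?_⟩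
  have hε3 : 0 < ε / 3 := by positivity
  obtain ⟨P, hP⟩ := close A hA (ε / 3) hε3
  set δ₀ : ℝ := (haveI := hA.gal; ∑' e : ℕ, aR A.F A.C
        (A.W₀ ⊔ Subgroup.zpowers A.D) A.W₀ A.k A.r.primeFactors e) with hδ₀
  have hlim := mean_tendsto A hA
  obtain ⟨y₀, hy₀3, hpl⟩ := Pool.Agent.H386R2.Artin.pi_lower
  have hev : ∀ᶠ x : ℕ in atTop,
      |mean (fun _ : Fin 1 => A) Set.univ x - δ₀ * (Nat.primeCounting x : ℝ)| ≤
        ε / 3 * (Nat.primeCounting x : ℝ) ∧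
      (x : ℝ) ^ (1 - c) ≤ ε / 3 * (Nat.primeCounting x : ℝ) := by
    have e1 := (Metric.tendsto_nhds.1 hlim) (ε / 3) hε3
    have e2 := Pool.Agent.H386R2.Artin.ev1 c (ε / 3) hc hε3
    filter_upwards [e1, e2, eventually_ge_atTop y₀] with x h1 h2 h3
    have hx3 : (3 : ℝ) ≤ x := by exact_mod_cast hy₀3.trans h3
    have hlx : 0 < Real.log x := Real.log_pos (by linarith)
    have h4 := hpl x h3
    have hpos : (0 : ℝ) < Nat.primeCounting x := lt_of_lt_of_le (by positivity) h4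
    constructor
    · rw [Real.dist_eq] at h1
      have h5 : mean (fun _ : Fin 1 => A) Set.univ x - δ₀ * (Nat.primeCounting x : ℝ) =
          (mean (fun _ : Fin 1 => A) Set.univ x / (Nat.primeCounting x : ℝ) - δ₀) *
            (Nat.primeCounting x : ℝ) := by
        field_simp
      rw [h5, abs_mul, abs_of_pos hpos]
      exact mul_le_mul_of_nonneg_right h1.le hpos.le
    · exact h2.trans (mul_le_mul_of_nonneg_left h4 hε3.le)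
  obtain ⟨x₂, hx₂⟩ := eventually_atTop.1 hev
  refine ⟨P, max X₀ x₂, fun X Y H hX hXY hH a d hd hdX => ?_⟩
  refine le_trans ?_ (h X Y H ((le_max_left _ _).trans hX) hXY hH a d hd hdX (fun _ => A) Set.univ)
  have hsub : (Icc 1 H).filter (fun m : ℕ =>
      (∃ p : ℕ, p.Prime ∧ P < p ∧ p ∣ a + d * m ∧ ¬ p ^ 2 ∣ a + d * m) ∧
      ∃ x : ℕ, X ≤ x ∧ x ≤ Y ∧ ε * (Nat.primeCounting x : ℝ) <
        |(A.S (a + d * m) x : ℝ) -
          δ A.F A.C (A.W (a + d * m)) A.k * (Nat.primeCounting x : ℝ)|) ⊆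
      (Icc 1 H).filter (fun m : ℕ => ∃ x : ℕ, X ≤ x ∧ x ≤ Y ∧
      (x : ℝ) ^ (1 - c) < |(cnt (fun _ : Fin 1 => A) Set.univ (a + d * m) x : ℝ) -
        mean (fun _ : Fin 1 => A) Set.univ x|) := by
    intro m hm
    obtain ⟨h1, h2, x, h3, h4, h5⟩ := mem_filter.1 hm
    refine mem_filter.2 ⟨h1, x, h3, h4, ?_⟩
    by_contra hcon
    push Not at hcon
    have hm1 : 1 ≤ m := (mem_Icc.1 h1).1
    have hn : a + d * m ≠ 0 := by
      have : 0 < d * m := Nat.mul_pos (Nat.pos_of_ne_zero hd) (by omega)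
      omega
    obtain ⟨h6, h7⟩ := hx₂ x ((le_max_right _ _).trans (hX.trans h3))
    have h8 := hP (a + d * m) hn h2
    rw [cnt_S] at hcon
    have hpos : (0 : ℝ) ≤ Nat.primeCounting x := Nat.cast_nonneg _
    have h9 : |δ A.F A.C (A.W (a + d * m)) A.k * (Nat.primeCounting x : ℝ) -
        δ₀ * (Nat.primeCounting x : ℝ)| ≤ ε / 3 * (Nat.primeCounting x : ℝ) := by
      rw [← sub_mul, abs_mul, abs_of_nonneg hpos]
      exact mul_le_mul_of_nonneg_right h8 hpos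
    have h10 : |(A.S (a + d * m) x : ℝ) -
        δ A.F A.C (A.W (a + d * m)) A.k * (Nat.primeCounting x : ℝ)| ≤
        ε * (Nat.primeCounting x : ℝ) := by
      rw [abs_le] at hcon h6 h9 ⊢
      constructor <;> linarith [hcon.1, hcon.2, h6.1, h6.2, h9.1, h9.2]
    linarith
  exact_mod_cast card_le_card hsub

open Classical in
theorem partC (η : ℝ) (hη : 0 < η) (A : Data) (hA : A.Admissible) (ε : ℝ) (hε : 0 < ε) (w : ℕ) :
    ∃ X₁ : ℕ, ∀ Y H : ℕ, X₁ ≤ Y → (Y : ℝ) ^ (1 / 2 + η) ≤ H →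
    ∀ a d : ℕ, d ≠ 0 → #d.primeFactors ≤ w →
    (#((Icc 1 H).filter (fun m : ℕ =>
      ∃ x : ℕ, X₁ ≤ x ∧ x ≤ Y ∧ ε * (Nat.primeCounting x : ℝ) <
        |(A.S (a + d * m) x : ℝ) -
          δ A.F A.C (A.W (a + d * m)) A.k * (Nat.primeCounting x : ℝ)|)) : ℝ) ≤ ε * H := by
  set η' : ℝ := min η (1 / 2) with hη'
  have h0 : 0 < η' := lt_min hη (by norm_num)
  have hη'2 : η' ≤ 1 / 2 := min_le_right _ _
  obtain ⟨c, hc, h⟩ := partB η' h0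
  obtain ⟨P, X₂, hB⟩ := h A hA ε hε
  obtain ⟨H₀, hH₀⟩ := exact_count P w (ε / 2) (by positivity)
  have hev : ∀ᶠ x : ℕ in atTop, (x : ℝ) ^ (-c) ≤ ε / 2 := by
    have h1 := (tendsto_rpow_neg_atTop hc).comp (tendsto_natCast_atTop_atTop (R := ℝ))
    exact h1.eventually_le_const (by positivity)
  obtain ⟨X₃, hX₃⟩ := eventually_atTop.1 hev
  set X₁ : ℕ := max (max X₂ X₃) (max (w ^ 2) (H₀ ^ 2) + 1) with hX₁
  have hX12 : X₂ ≤ X₁ := (le_max_left _ _).trans (le_max_left _ _)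
  have hX13 : X₃ ≤ X₁ := (le_max_right _ _).trans (le_max_left _ _)
  have hX1w : w ^ 2 ≤ X₁ := (le_max_left _ _).trans ((Nat.le_succ _).trans (le_max_right _ _))
  have hX1H : H₀ ^ 2 ≤ X₁ := (le_max_right _ _).trans ((Nat.le_succ _).trans (le_max_right _ _))
  have hX11 : 1 ≤ X₁ := (Nat.le_add_left 1 _).trans (le_max_right _ _)
  have hX1r : (1 : ℝ) ≤ X₁ := by exact_mod_cast hX11
  refine ⟨X₁, fun Y H hY hH a d hd hw => ?_⟩
  have hY1 : (1 : ℝ) ≤ Y := hX1r.trans (by exact_mod_cast hY)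
  have hsqrt : ∀ t : ℕ, t ^ 2 ≤ X₁ → (t : ℝ) ≤ (X₁ : ℝ) ^ (1 / 2 : ℝ) := by
    intro t ht
    rw [← Real.sqrt_eq_rpow]
    apply Real.le_sqrt_of_sq_le
    exact_mod_cast ht
  have hw1 : (#d.primeFactors : ℝ) ≤ (X₁ : ℝ) ^ (1 - η') := by
    calc (#d.primeFactors : ℝ) ≤ w := by exact_mod_cast hw
      _ ≤ (X₁ : ℝ) ^ (1 / 2 : ℝ) := hsqrt w hX1w
      _ ≤ (X₁ : ℝ) ^ (1 - η') := Real.rpow_le_rpow_of_exponent_le hX1r (by linarith)
  have hH1 : (Y : ℝ) ^ (1 / 2 + η') ≤ H :=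
    (Real.rpow_le_rpow_of_exponent_le hY1 (by linarith [min_le_left η (1 / 2)])).trans hH
  have hHH : H₀ ≤ H := by
    have h1 : (H₀ : ℝ) ≤ H := by
      calc (H₀ : ℝ) ≤ (X₁ : ℝ) ^ (1 / 2 : ℝ) := hsqrt H₀ hX1H
        _ ≤ (Y : ℝ) ^ (1 / 2 : ℝ) :=
          Real.rpow_le_rpow (by positivity) (by exact_mod_cast hY) (by norm_num)
        _ ≤ (Y : ℝ) ^ (1 / 2 + η') := Real.rpow_le_rpow_of_exponent_le hY1 (by linarith)
        _ ≤ H := hH1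
    exact_mod_cast h1
  have hb := hB X₁ Y H hX12 hY hH1 a d hd hw1
  have hs := hH₀ H hHH a d hd hw
  have hH0 : (0 : ℝ) ≤ H := Nat.cast_nonneg _
  have hcov : (Icc 1 H).filter (fun m : ℕ =>
      ∃ x : ℕ, X₁ ≤ x ∧ x ≤ Y ∧ ε * (Nat.primeCounting x : ℝ) <
        |(A.S (a + d * m) x : ℝ) -
          δ A.F A.C (A.W (a + d * m)) A.k * (Nat.primeCounting x : ℝ)|) ⊆
      (Icc 1 H).filter (fun m : ℕ =>
        (∃ p : ℕ, p.Prime ∧ P < p ∧ p ∣ a + d * m ∧ ¬ p ^ 2 ∣ a + d * m) ∧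
        ∃ x : ℕ, X₁ ≤ x ∧ x ≤ Y ∧ ε * (Nat.primeCounting x : ℝ) <
          |(A.S (a + d * m) x : ℝ) -
            δ A.F A.C (A.W (a + d * m)) A.k * (Nat.primeCounting x : ℝ)|) ∪
      (Icc 1 H).filter (fun m : ℕ =>
        ¬ ∃ p : ℕ, p.Prime ∧ P < p ∧ p ∣ a + d * m ∧ ¬ p ^ 2 ∣ a + d * m) := by
    intro m hm
    obtain ⟨h1, h2⟩ := mem_filter.1 hm
    rw [mem_union]
    by_cases h3 : ∃ p : ℕ, p.Prime ∧ P < p ∧ p ∣ a + d * m ∧ ¬ p ^ 2 ∣ a + d * m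
    · exact Or.inl (mem_filter.2 ⟨h1, h3, h2⟩)
    · exact Or.inr (mem_filter.2 ⟨h1, h3⟩)
  calc _ ≤ ((#((Icc 1 H).filter (fun m : ℕ =>
        (∃ p : ℕ, p.Prime ∧ P < p ∧ p ∣ a + d * m ∧ ¬ p ^ 2 ∣ a + d * m) ∧
        ∃ x : ℕ, X₁ ≤ x ∧ x ≤ Y ∧ ε * (Nat.primeCounting x : ℝ) <
          |(A.S (a + d * m) x : ℝ) -
            δ A.F A.C (A.W (a + d * m)) A.k * (Nat.primeCounting x : ℝ)|)) : ℕ) : ℝ) +
      ((#((Icc 1 H).filter (fun m : ℕ =>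
        ¬ ∃ p : ℕ, p.Prime ∧ P < p ∧ p ∣ a + d * m ∧ ¬ p ^ 2 ∣ a + d * m)) : ℕ) : ℝ) := by
        have := (card_le_card hcov).trans (card_union_le _ _)
        exact_mod_cast this
    _ ≤ (X₁ : ℝ) ^ (-c) * H + ε / 2 * H := add_le_add hb hs
    _ ≤ ε / 2 * H + ε / 2 * H := by
        have := mul_le_mul_of_nonneg_right (hX₃ X₁ hX13) hH0
        linarith
    _ = ε * H := by ring

end Pool.Agent.K6.H61.AL
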